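import Pool.Agent.Q164.MSO.LP

/-!
# Matroids with the property `Nice` are given by two paths
-/

set_option autoImplicit false

namespace Pool.Agent.Q164.MSO

open Set

variable {α : Type} {M : Matroid α}

/-! ### The rank as the largest intersection with a base -/

/-- the rank of a set -/
noncomputable def rk (M : Matroid α) (X : Set α) : ℕ :=
  sSup {n | ∃ B, M.IsBase B ∧ (B ∩ X).ncard = n}

lemma rk_bdd [Finite α] (X : Set α) :
    BddAbove {n | ∃ B, M.IsBase B ∧ (B ∩ X).ncard = n} := by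
  refine ⟨(univ : Set α).ncard, ?_⟩
  rintro n ⟨B, _, rfl⟩
  exact ncard_le_ncard (subset_univ _)

lemma le_rk [Finite α] {B X : Set α} (hB : M.IsBase B) : (B ∩ X).ncard ≤ rk M X :=
  le_csSup (rk_bdd X) ⟨B, hB, rfl⟩

lemma exists_rk [Finite α] (M : Matroid α) (X : Set α) :
    ∃ B, M.IsBase B ∧ (B ∩ X).ncard = rk M X := by
  obtain ⟨B, hB⟩ := M.exists_isBase
  exact Nat.sSup_mem (s := {n | ∃ B, M.IsBase B ∧ (B ∩ X).ncard = n}) ⟨_, B, hB, rfl⟩ (rk_bdd X)

lemma rk_union [Finite α] (X Y : Set α) : rk M (X ∪ Y) ≤ rk M X + rk M Y := by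
  obtain ⟨B, hB, h⟩ := exists_rk M (X ∪ Y)
  rw [← h, inter_union_distrib_left]
  exact (ncard_union_le _ _).trans (add_le_add (le_rk hB) (le_rk hB))

lemma rk_mono [Finite α] {X Y : Set α} (h : X ⊆ Y) : rk M X ≤ rk M Y := by
  obtain ⟨B, hB, h1⟩ := exists_rk M X
  rw [← h1]
  exact (ncard_le_ncard (inter_subset_inter_right _ h)).trans (le_rk hB)

lemma rk_empty [Finite α] : rk M ∅ = 0 := by
  obtain ⟨B, hB, h1⟩ := exists_rk M ∅
  rw [← h1]; simp

lemma rk_singleton [Finite α] (x : α) : rk M {x} ≤ 1 := by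
  obtain ⟨B, hB, h1⟩ := exists_rk M {x}
  rw [← h1, ← ncard_singleton x]
  exact ncard_le_ncard inter_subset_right

lemma rk_ground [Finite α] {B : Set α} (hB : M.IsBase B) : rk M M.E = B.ncard := by
  obtain ⟨B', hB', h1⟩ := exists_rk M M.E
  rw [← h1, inter_eq_left.2 hB'.subset_ground]
  exact hB'.ncard_eq_ncard_of_isBase hB

lemma Spn.card [Finite α] {B D : Set α} (hB : M.IsBase B) (h : Spn M B D) :
    (B ∩ D).ncard = rk M D := by
  refine le_antisymm (le_rk hB) ?_
  by_contra hc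
  push Not at hc
  obtain ⟨B₀, hB₀, h0⟩ := exists_rk M D
  rw [← h0] at hc
  have hlt : (B ∩ D).encard < (B₀ ∩ D).encard := by
    rw [← Set.Finite.cast_ncard_eq (toFinite _), ← Set.Finite.cast_ncard_eq (toFinite _)]
    exact_mod_cast hc
  obtain ⟨e, he, hi⟩ := (hB.indep.inter_right D).augment (hB₀.indep.inter_right D) hlt
  have := h (insert e (B ∩ D)) hi.subset_ground hi (insert_subset he.1.2 inter_subset_right)
    (subset_insert _ _)
  exact he.2 ⟨this (mem_insert _ _), he.1.2⟩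

lemma Sep.card_rk [Finite α] {S B : Set α} (hS : Sep M S) (hB : M.IsBase B) :
    (B ∩ S).ncard = rk M S := by
  obtain ⟨B₀, hB₀, h0⟩ := exists_rk M S
  rw [← h0]; exact hS.card hB hB₀

lemma Sep.union {S S' : Set α} (h : Sep M S) (h' : Sep M S') : Sep M (S ∪ S') := by
  intro B hB b hb c hc hcB hR
  have h1 := h B hB b hb c hc hcB hR
  have h2 := h' B hB b hb c hc hcB hR
  simp only [mem_union]
  tauto

/-- The rank of a set and of its complement, for a separator. -/
lemma Sep.rk_add [Finite α] {S B : Set α} (hS : Sep M S) (hB : M.IsBase B) :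
    rk M S + rk M (M.E \ S) = B.ncard := by
  rw [← hS.card_rk hB, ← hS.compl.card_rk hB]
  have h1 : B ∩ (M.E \ S) = B \ S := by
    ext y; simp only [mem_inter_iff, mem_sdiff]
    exact ⟨fun h => ⟨h.1, h.2.2⟩, fun h => ⟨h.1, hB.subset_ground h.1, h.2⟩⟩
  rw [h1]
  exact ncard_inter_add_ncard_sdiff_eq_ncard B S

/-! ### Keys -/

lemma key_lt {n a b i j : ℕ} (hab : a < b) (hi : i < n + 1) :
    ((n : ℤ) + 1) * a + i < ((n : ℤ) + 1) * b + j := by
  have h1 : (a : ℤ) + 1 ≤ b := by exact_mod_cast hab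
  have h2 : (i : ℤ) < n + 1 := by exact_mod_cast hi
  have h3 : (0 : ℤ) ≤ j := Int.natCast_nonneg j
  nlinarith

lemma exists_key [Finite α] (C : Set (Set α)) (hC : ∀ X ∈ C, ∀ Y ∈ C, X ⊆ Y ∨ Y ⊆ X) :
    ∃ κ : α → ℤ, Function.Injective κ ∧ ∀ X ∈ C, ∀ x ∈ X, ∀ z, z ∉ X → κ x < κ z := by
  obtain ⟨n, ⟨e⟩⟩ := Finite.exists_equiv_fin α
  refine ⟨fun x => ((n : ℤ) + 1) * (({Y ∈ C | x ∉ Y} : Set (Set α)).ncard : ℕ) + ((e x : ℕ) : ℤ),
    ?_, ?_⟩
  · intro x y hxy
    simp only at hxy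
    rcases lt_trichotomy (({Y ∈ C | x ∉ Y} : Set (Set α)).ncard)
      (({Y ∈ C | y ∉ Y} : Set (Set α)).ncard) with h | h | h
    · have := key_lt (n := n) (i := e x) (j := e y) h (by have := (e x).2; omega)
      omega
    · rw [h] at hxy
      have h1 : ((e x : ℕ) : ℤ) = ((e y : ℕ) : ℤ) := by linarith
      have h2 : (e x : ℕ) = (e y : ℕ) := by exact_mod_cast h1
      exact e.injective (Fin.ext h2)
    · have := key_lt (n := n) (i := e y) (j := e x) h (by have := (e y).2; omega)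
      omega
  · intro X hX x hx z hz
    refine key_lt ?_ (by have := (e x).2; omega)
    refine ncard_lt_ncard ?_
    refine ⟨?_, ?_⟩
    · rintro Y ⟨hY, hxY⟩
      refine ⟨hY, ?_⟩
      intro hzY
      rcases hC X hX Y hY with h | h
      · exact hxY (h hx)
      · exact hz (h hzY)
    · intro hcon
      exact (hcon (show X ∈ {Y ∈ C | z ∉ Y} from ⟨hX, hz⟩)).2 hx

/-! ### The two paths -/

section path
variable {κ : α → ℤ}

lemma notMem_lo {E : Set α} (x : α) : x ∉ lo κ E x := fun hc => by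
  have := hc.2
  omega

lemma loE_eq {E : Set α} (hinj : InjOn κ E) {x : α} (hx : x ∈ E) :
    loE κ E x = insert x (lo κ E x) := by
  ext y
  simp only [loE, lo, mem_ofPred_eq, mem_insert_iff]
  constructor
  · rintro ⟨hy, hyx⟩
    rcases lt_or_eq_of_le hyx with h5 | h5
    · exact Or.inr ⟨hy, h5⟩
    · exact Or.inl (hinj hy hx h5)
  · rintro (rfl | ⟨hy, hyx⟩)
    · exact ⟨hx, le_rfl⟩
    · exact ⟨hy, hyx.le⟩

/-- the upper path -/
def QQ (M : Matroid α) (κ : α → ℤ) : Set α := {x ∈ M.E | rk M (loE κ M.E x) ≠ rk M (lo κ M.E x)}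

theorem QQ_card [Finite α] (hinj : InjOn κ M.E) (n : ℕ) :
    ∀ I, Low κ M.E I → I.ncard = n → (QQ M κ ∩ I).ncard = rk M I := by
  classical
  induction n with
  | zero =>
    intro I _ hn
    have : I = ∅ := (ncard_eq_zero (toFinite _)).1 hn
    rw [this, rk_empty]; simp
  | succ n ih =>
    intro I hI hn
    have hne : I.Nonempty := by
      rw [nonempty_iff_ne_empty]; rintro rfl; simp at hn
    obtain ⟨x, hx, hIx⟩ := exists_max_low hI hne
    have hxE := hI.1 hx
    have h1 := loE_eq hinj hxE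
    have h2 : (lo κ M.E x).ncard = n := by
      have : (loE κ M.E x).ncard = n + 1 := by rw [← hIx]; exact hn
      rw [h1, ncard_insert_of_notMem (notMem_lo x)] at this
      omega
    have h3 := ih _ (low_lo x) h2
    have h4 : rk M (lo κ M.E x) ≤ rk M (loE κ M.E x) := by
      rw [h1]; exact rk_mono (subset_insert _ _)
    have h5 : rk M (loE κ M.E x) ≤ rk M (lo κ M.E x) + 1 := by
      rw [h1, insert_eq, union_comm]
      exact (rk_union _ _).trans (add_le_add le_rfl (rk_singleton x))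
    rw [hIx]
    by_cases hxQ : x ∈ QQ M κ
    · have h6 : (QQ M κ ∩ loE κ M.E x).ncard = (QQ M κ ∩ lo κ M.E x).ncard + 1 := by
        rw [h1, inter_insert_of_mem hxQ, ncard_insert_of_notMem]
        exact fun hc => notMem_lo x hc.2
      have h7 := hxQ.2
      omega
    · have h6 : (QQ M κ ∩ loE κ M.E x).ncard = (QQ M κ ∩ lo κ M.E x).ncard := by
        rw [h1, inter_insert_of_notMem hxQ]
      have h7 : rk M (loE κ M.E x) = rk M (lo κ M.E x) := by
        by_contra hc
        exact hxQ ⟨hxE, hc⟩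
      omega

lemma QQ_rk [Finite α] (hinj : InjOn κ M.E) {I : Set α} (hI : Low κ M.E I) :
    (QQ M κ ∩ I).ncard = rk M I := QQ_card hinj _ I hI rfl

lemma QQ_sub : QQ M κ ⊆ M.E := fun _ h => h.1

lemma ncard_compl' [Finite α] {E B I : Set α} (hB : B ⊆ E) :
    (B ∩ (E \ I)).ncard + (B ∩ I).ncard = B.ncard := by
  have h1 : B ∩ (E \ I) = B \ I := by
    ext y; simp only [mem_inter_iff, mem_sdiff]
    exact ⟨fun h => ⟨h.1, h.2.2⟩, fun h => ⟨h.1, hB h.1, h.2⟩⟩
  rw [h1]
  have := ncard_inter_add_ncard_sdiff_eq_ncard B I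
  omega

/-- A set is between the two paths, in terms of the rank. -/
def Good (M : Matroid α) (κ : α → ℤ) (B : Set α) : Prop :=
  B ⊆ M.E ∧ B.ncard = rk M M.E ∧ ∀ I, Low κ M.E I →
    rk M M.E ≤ (B ∩ I).ncard + rk M (M.E \ I) ∧ (B ∩ I).ncard ≤ rk M I

lemma Good.of_base [Finite α] {B : Set α} (hB : M.IsBase B) : Good M κ B := by
  refine ⟨hB.subset_ground, (rk_ground hB).symm, ?_⟩
  intro I _
  refine ⟨?_, le_rk hB⟩
  rw [rk_ground hB, ← ncard_compl' (I := I) hB.subset_ground]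
  have := le_rk (M := M) (X := M.E \ I) hB
  omega

/-- Two sets between the paths admit an exchange. -/
theorem Good.exchange [Finite α] (hinj : InjOn κ M.E) {B X : Set α} (hB : Good M κ B)
    (hX : Good M κ X) (hne : B ≠ X) :
    ∃ b ∈ B, b ∉ X ∧ ∃ c ∈ X, c ∉ B ∧ Good M κ (insert c (B \ {b})) := by
  classical
  have hcard : B.ncard = X.ncard := hB.2.1.trans hX.2.1.symm
  have h1 : (B \ X).Nonempty := by
    rw [nonempty_iff_ne_empty]
    intro hc
    exact hne (eq_of_subset_of_ncard_le (sdiff_eq_empty.1 hc) hcard.ge)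
  have h2 : (X \ B).Nonempty := by
    rw [nonempty_iff_ne_empty]
    intro hc
    exact hne (eq_of_subset_of_ncard_le (sdiff_eq_empty.1 hc) hcard.le).symm
  obtain ⟨b, hb, hbmin⟩ := Set.exists_min_image (B \ X) κ (toFinite _) h1
  obtain ⟨c, hc, hcmin⟩ := Set.exists_min_image (X \ B) κ (toFinite _) h2
  have hbE := hB.1 hb.1
  have hcE := hX.1 hc.1
  refine ⟨b, hb.1, hb.2, c, hc.1, hc.2, insert_subset hcE (sdiff_subset.trans hB.1),
    (swap_ncard hb.1 hc.2).trans hB.2.1, ?_⟩
  intro I hI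
  have h3 := swap_card (I := I) hb.1 hc.2
  have h4 := hB.2.2 I hI
  have h5 := hX.2.2 I hI
  by_cases hbI : b ∈ I <;> by_cases hcI : c ∈ I
  · simp only [hbI, hcI, if_true] at h3
    omega
  · simp only [hbI, hcI, if_true, if_false] at h3
    have h6 : X ∩ I ⊆ (B ∩ I) \ {b} := by
      rintro y ⟨hyX, hyI⟩
      refine ⟨⟨?_, hyI⟩, ?_⟩
      · by_contra hyB
        have h7 := hcmin y ⟨hyX, hyB⟩
        have h8 := hI.2 y hyI c hcE hcI
        omega
      · rintro rfl
        exact hb.2 hyX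
    have h7 := ncard_le_ncard h6
    have h8 := ncard_sdiff_singleton_add_one (s := B ∩ I) (a := b) ⟨hb.1, hbI⟩
    omega
  · simp only [hbI, hcI, if_true, if_false] at h3
    have h6 : B ∩ I ⊆ (X ∩ I) \ {c} := by
      rintro y ⟨hyB, hyI⟩
      refine ⟨⟨?_, hyI⟩, ?_⟩
      · by_contra hyX
        have h7 := hbmin y ⟨hyB, hyX⟩
        have h8 := hI.2 y hyI b hbE hbI
        omega
      · rintro rfl
        exact hc.2 hyB
    have h7 := ncard_le_ncard h6
    have h8 := ncard_sdiff_singleton_add_one (s := X ∩ I) (a := c) ⟨hc.1, hcI⟩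
    omega
  · simp only [hbI, hcI, if_false] at h3
    omega

/-- If all the sets between the paths are bases, then the matroid is given by the two paths. -/
theorem LP_of_good [Finite α] (hinj : InjOn κ M.E) (hgood : ∀ B, Good M κ B → M.IsBase B) :
    LP M κ (QQ M (fun x => - κ x)) (QQ M κ) := by
  have hinj' : InjOn (fun x => - κ x) M.E := by
    intro x hx y hy hxy
    apply hinj hx hy
    simpa using hxy
  have hq : ∀ I, Low κ M.E I → (QQ M κ ∩ I).ncard = rk M I := fun I hI => QQ_rk hinj hI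
  have hE1 : (QQ M κ).ncard = rk M M.E := by
    have := hq _ low_self
    rwa [inter_eq_left.2 QQ_sub] at this
  have hE2 : (QQ M (fun x => - κ x)).ncard = rk M M.E := by
    have := QQ_rk hinj' (low_self (κ := fun x => - κ x) (E := M.E))
    rwa [inter_eq_left.2 QQ_sub] at this
  have hp : ∀ I, Low κ M.E I →
      (QQ M (fun x => - κ x) ∩ I).ncard + rk M (M.E \ I) = rk M M.E := by
    intro I hI
    have h1 := QQ_rk hinj' (low_neg hI)
    have h2 := ncard_compl' (I := I) (QQ_sub (M := M) (κ := fun x => - κ x))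
    omega
  refine ⟨hinj, QQ_sub, QQ_sub, hE2.trans hE1.symm, ?_, ?_⟩
  · intro I hI
    have h1 := hp I hI
    have h2 := hq I hI
    have h3 : rk M M.E ≤ rk M I + rk M (M.E \ I) := by
      have := rk_union (M := M) I (M.E \ I)
      rwa [union_sdiff_cancel hI.1] at this
    omega
  · intro B hB
    constructor
    · intro h
      have h1 := Good.of_base (κ := κ) h
      refine ⟨h1.2.1.trans hE1.symm, ?_⟩
      intro I hI
      have h2 := h1.2.2 I hI
      have h3 := hp I hI
      have h4 := hq I hI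
      omega
    · rintro ⟨h1, h2⟩
      apply hgood
      refine ⟨hB, h1.trans hE1, ?_⟩
      intro I hI
      have h2 := h2 I hI
      have h3 := hp I hI
      have h4 := hq I hI
      omega

end path

/-! ### The construction -/

lemma Comp.eq_or [Finite α] {K K' : Set α} (hK : Comp M K) (hKE : K ⊆ M.E) (hK' : Comp M K')
    (hKE' : K' ⊆ M.E) : K = K' ∨ Disjoint K K' := by
  rcases hK.subset_or hKE hK'.1 with h | h
  · rcases hK'.subset_or hKE' hK.1 with h' | h'
    · exact Or.inl (subset_antisymm h h')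
    · exact Or.inr h'.symm
  · exact Or.inr h

/-- the union of the earlier components -/
def UU (M : Matroid α) (ι : Set α → ℕ) (K : Set α) : Set α :=
  {x | ∃ K', K' ⊆ M.E ∧ Comp M K' ∧ x ∈ K' ∧ ι K' < ι K}

lemma UU_sub (ι : Set α → ℕ) (K : Set α) : UU M ι K ⊆ M.E := by
  rintro x ⟨K', h1, _, h2, _⟩
  exact h1 h2

lemma UU_sep (ι : Set α → ℕ) (K : Set α) : Sep M (UU M ι K) := by
  intro B hB b hb c hc hcB hR
  constructor
  · rintro ⟨K', h1, h2, h3, h4⟩
    exact ⟨K', h1, h2, (h2.1 B hB b hb c hc hcB hR).1 h3, h4⟩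
  · rintro ⟨K', h1, h2, h3, h4⟩
    exact ⟨K', h1, h2, (h2.1 B hB b hb c hc hcB hR).2 h3, h4⟩

lemma UU_disj [Finite α] {ι : Set α → ℕ} {K : Set α} (hK : Comp M K) (hKE : K ⊆ M.E) :
    Disjoint (UU M ι K) K := by
  rw [disjoint_left]
  rintro x ⟨K', h1, h2, h3, h4⟩ hx
  rcases hK.eq_or hKE h2 h1 with h | h
  · rw [h] at h4
    exact lt_irrefl _ h4
  · exact disjoint_left.1 h hx h3

/-- the local family of a component -/
def Loc (M : Matroid α) (P Q K D : Set α) : Prop :=
  D ⊆ K ∧ (D = ∅ ∨ D = K ∨ InF M Q D ∨ ∃ G, G ⊆ K ∧ InF M P G ∧ D = K \ G)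

theorem Nice.exists_LP [Finite α] (h : Nice M) : ∃ κ P Q, LP M κ P Q := by
  classical
  obtain ⟨Q, hQE, P, hPE, hQ, hP, hloc, hfail⟩ := h
  obtain ⟨m, ⟨e⟩⟩ := Finite.exists_equiv_fin (Set α)
  set ι : Set α → ℕ := fun K => (e K : ℕ) with hι
  have hιinj : ∀ K K', ι K = ι K' → K = K' := fun K K' h => e.injective (Fin.ext h)
  -- the chain
  set C : Set (Set α) := {X | ∃ K, K ⊆ M.E ∧ Comp M K ∧ ∃ D, Loc M P Q K D ∧ X = UU M ι K ∪ D}
    with hC
  have hlocal : ∀ K, K ⊆ M.E → Comp M K → ∀ D, Loc M P Q K D → ∀ D', Loc M P Q K D' →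
      D ⊆ D' ∨ D' ⊆ D := by
    intro K hKE hK D ⟨hDK, hD⟩ D' ⟨hDK', hD'⟩
    have key : ∀ A G : Set α, A ⊆ K → G ⊆ K → InF M Q A → InF M P G →
        A ⊆ K \ G ∨ K \ G ⊆ A := by
      intro A G hA hG h1 h2
      rcases (hloc K hKE hK A (hA.trans hKE) hA G (hG.trans hKE) hG).2.2 h1 h2 with h3 | h3
      · left
        exact fun x hx => ⟨hA hx, fun hxG => disjoint_left.1 h3 hx hxG⟩
      · right
        rintro x ⟨hx, hxG⟩
        exact (h3 hx).resolve_right hxG
    rcases hD with rfl | rfl | hD | ⟨G, hG, hD, rfl⟩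
    · exact Or.inl (empty_subset _)
    · exact Or.inr hDK'
    · rcases hD' with rfl | rfl | hD' | ⟨G', hG', hD', rfl⟩
      · exact Or.inr (empty_subset _)
      · exact Or.inl hDK
      · exact (hloc K hKE hK D (hDK.trans hKE) hDK D' (hDK'.trans hKE) hDK').1 hD hD'
      · exact key D G' hDK hG' hD hD'
    · rcases hD' with rfl | rfl | hD' | ⟨G', hG', hD', rfl⟩
      · exact Or.inr (empty_subset _)
      · exact Or.inl hDK
      · exact (key D' G hDK' hG hD' hD).symm
      · rcases (hloc K hKE hK G (hG.trans hKE) hG G' (hG'.trans hKE) hG').2.1 hD hD' with h1 | h1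
        · right; exact sdiff_subset_sdiff_right h1
        · left; exact sdiff_subset_sdiff_right h1
  have hchain : ∀ X ∈ C, ∀ Y ∈ C, X ⊆ Y ∨ Y ⊆ X := by
    have key : ∀ K K' D D' : Set α, K ⊆ M.E → Comp M K → Loc M P Q K D → ι K < ι K' →
        UU M ι K ∪ D ⊆ UU M ι K' ∪ D' := by
      intro K K' D D' hKE hK hD hlt
      refine subset_union_of_subset_left ?_ _
      refine union_subset ?_ ?_
      · rintro x ⟨K₁, h1, h2, h3, h4⟩
        exact ⟨K₁, h1, h2, h3, h4.trans hlt⟩
      · intro x hx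
        exact ⟨K, hKE, hK, hD.1 hx, hlt⟩
    rintro X ⟨K, hKE, hK, D, hD, rfl⟩ Y ⟨K', hKE', hK', D', hD', rfl⟩
    rcases lt_trichotomy (ι K) (ι K') with h1 | h1 | h1
    · left; exact key K K' D D' hKE hK hD h1
    · have := hιinj _ _ h1
      subst this
      rcases hlocal K hKE hK D hD D' hD' with h2 | h2
      · left; exact union_subset_union_right _ h2
      · right; exact union_subset_union_right _ h2
    · right; exact key K' K D' D hKE' hK' hD' h1
  obtain ⟨κ, hκ, hlow⟩ := exists_key C hchain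
  have hinj : InjOn κ M.E := hκ.injOn
  have hlowC : ∀ K, K ⊆ M.E → Comp M K → ∀ D, Loc M P Q K D → Low κ M.E (UU M ι K ∪ D) := by
    intro K hKE hK D hD
    refine ⟨union_subset (UU_sub _ _) (hD.1.trans hKE), ?_⟩
    intro x hx z _ hz
    exact hlow _ ⟨K, hKE, hK, D, hD, rfl⟩ x hx z hz
  refine ⟨κ, _, _, LP_of_good hinj ?_⟩
  intro X hX
  -- a base closest to `X`
  obtain ⟨B, hB, hmin⟩ := Set.exists_min_image {B | M.IsBase B} (fun B => (B \ X).ncard)
    (toFinite _) ⟨Q, hQ⟩
  by_cases hBX : B = X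
  · rw [← hBX]; exact hB
  exfalso
  have hB : M.IsBase B := hB
  obtain ⟨b, hb, hbX, c, hc, hcB, hG⟩ := (Good.of_base (κ := κ) hB).exchange hinj hX hBX
  have hcE := hX.1 hc
  have hbE := hB.subset_ground hb
  set B' : Set α := insert c (B \ {b}) with hB'
  have hnb : ¬ M.IsBase B' := by
    intro hcon
    have h1 := hmin _ hcon
    have h2 : (B' \ X).ncard < (B \ X).ncard := by
      refine ncard_lt_ncard ?_
      refine ⟨?_, ?_⟩
      · rintro y ⟨rfl | hy, hy2⟩
        · exact absurd hc hy2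
        · exact ⟨hy.1, hy2⟩
      · intro h3
        rcases (h3 (show b ∈ B \ X from ⟨hb, hbX⟩)).1 with h | h
        · exact hcB (h ▸ hb)
        · exact h.2 rfl
    omega
  obtain ⟨K, hKE, hK, D, hDE, hDK, hDtype, hcD, hbD, hspn⟩ :=
    hfail B hB.subset_ground hB b hbE hb c hcE hcB (fun hR => hnb hR.2)
  have h1 := hspn.card hB
  have h2 : (B' ∩ D).ncard = rk M D + 1 := by
    have := swap_card (I := D) hb hcB
    simp only [hcD, hbD, if_true, if_false] at this
    rw [← hB'] at this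
    omega
  -- ranks
  have hU := UU_sep (M := M) ι K
  have hUd := UU_disj (ι := ι) hK hKE
  have hUsub := UU_sub (M := M) ι K
  have hr := rk_ground hB
  have e1 := hU.rk_add hB
  have e2 := (hU.union hK.1).rk_add hB
  have hsplit : ∀ A D : Set α, D ⊆ K →
      (A ∩ (UU M ι K ∪ D)).ncard = (A ∩ UU M ι K).ncard + (A ∩ D).ncard := by
    intro A D hD
    rw [inter_union_distrib_left, ncard_union_eq]
    rw [disjoint_left]
    rintro y ⟨_, hy1⟩ ⟨_, hy2⟩
    exact disjoint_left.1 hUd hy1 (hD hy2)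
  have e3 : rk M (UU M ι K ∪ K) = rk M (UU M ι K) + rk M K := by
    rw [← (hU.union hK.1).card_rk hB, ← hU.card_rk hB, ← hK.1.card_rk hB]
    exact hsplit B K subset_rfl
  have g0 := hG.2.2 _ (hlowC K hKE hK ∅ ⟨empty_subset _, Or.inl rfl⟩)
  rw [union_empty] at g0
  have g1 := hG.2.2 _ (hlowC K hKE hK K ⟨subset_rfl, Or.inr (Or.inl rfl)⟩)
  have g2 := hsplit B' K subset_rfl
  have hDle : (B' ∩ D).ncard ≤ rk M D := by
    rcases hDtype with h3 | h3 | h3
    · have g3 := hG.2.2 _ (hlowC K hKE hK D ⟨hDK, Or.inr (Or.inr (Or.inl h3))⟩)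
      have g4 := hsplit B' D hDK
      have g5 := rk_union (M := M) (UU M ι K) D
      omega
    · have g3 := hG.2.2 _ (hlowC K hKE hK (K \ D)
        ⟨sdiff_subset, Or.inr (Or.inr (Or.inr ⟨D, hDK, h3, rfl⟩))⟩)
      have g4 := hsplit B' (K \ D) sdiff_subset
      have g5 : M.E \ (UU M ι K ∪ K \ D) ⊆ D ∪ (M.E \ (UU M ι K ∪ K)) := by
        rintro y ⟨hyE, hy⟩
        by_cases hyD : y ∈ D
        · exact Or.inl hyD
        · right
          refine ⟨hyE, ?_⟩
          rintro (h4 | h4)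
          · exact hy (Or.inl h4)
          · exact hy (Or.inr ⟨h4, hyD⟩)
      have g6 := (rk_mono (M := M) g5).trans (rk_union _ _)
      have g7 : (B' ∩ K).ncard = (B' ∩ D).ncard + (B' ∩ (K \ D)).ncard := by
        rw [← ncard_union_eq]
        · congr 1
          ext y
          simp only [mem_inter_iff, mem_union, mem_sdiff]
          have := @hDK y
          tauto
        · rw [disjoint_left]
          rintro y ⟨_, hy1⟩ ⟨_, hy2⟩
          exact hy2.2 hy1
      omega
    · have : D = K := subset_antisymm hDK h3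
      subst this
      omega
  omega

end Pool.Agent.Q164.MSO
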