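import Pool.Agent.Q164.MSO.LP

/-!
# Matroids given by two paths have the property `Nice`
-/

set_option autoImplicit false

namespace Pool.Agent.Q164.MSO

open Set

variable {α : Type} {M : Matroid α} {κ : α → ℤ} {P Q : Set α}

/-- the paths meet at `I` -/
def Touch (κ : α → ℤ) (E P Q I : Set α) : Prop := Low κ E I ∧ (P ∩ I).ncard = (Q ∩ I).ncard

/-- `a` is in the fundamental circuit of `x` -/
def Aft (κ : α → ℤ) (E P Q : Set α) (x a : α) : Prop :=
  a ∈ Q ∧ κ a < κ x ∧ ∀ I, Low κ E I → a ∈ I → x ∉ I → (P ∩ I).ncard < (Q ∩ I).ncard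

/-- nothing of `Q` is between `x` and the elements of this set -/
def Wid (κ : α → ℤ) (E Q : Set α) (x : α) : Set α := {y ∈ E | ∀ a ∈ Q, κ x < κ a → κ y < κ a}

/-- `T` is the last meeting before `x` -/
def Last (κ : α → ℤ) (E P Q : Set α) (x : α) (T : Set α) : Prop :=
  Touch κ E P Q T ∧ x ∉ T ∧ ∀ J, Touch κ E P Q J → x ∉ J → J ⊆ T

lemma LP.baseQ (h : LP M κ P Q) : M.IsBase Q :=
  (h.base Q h.subQ).2 ⟨rfl, fun I hI => ⟨h.le I hI, le_rfl⟩⟩

lemma LP.baseP (h : LP M κ P Q) : M.IsBase P :=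
  (h.base P h.subP).2 ⟨h.card, fun I hI => ⟨le_rfl, h.le I hI⟩⟩

lemma compl_ncard [Finite α] {E B I : Set α} (hB : B ⊆ E) :
    (B ∩ (E \ I)).ncard + (B ∩ I).ncard = B.ncard := by
  have h1 : B ∩ (E \ I) = B \ I := by
    ext y; simp only [mem_inter_iff, mem_sdiff]
    exact ⟨fun h => ⟨h.1, h.2.2⟩, fun h => ⟨h.1, hB h.1, h.2⟩⟩
  rw [h1]
  have := ncard_inter_add_ncard_sdiff_eq_ncard B I
  omega

/-- The order can be reversed. -/
theorem LP.rev [Finite α] (h : LP M κ P Q) : LP M (fun x => - κ x) Q P := by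
  have hle : ∀ A B : Set α, A ⊆ M.E → B ⊆ M.E → A.ncard = B.ncard → ∀ I,
      ((A ∩ (M.E \ I)).ncard ≤ (B ∩ (M.E \ I)).ncard ↔ (B ∩ I).ncard ≤ (A ∩ I).ncard) := by
    intro A B hA hB hAB I
    have h1 := compl_ncard (I := I) hA
    have h2 := compl_ncard (I := I) hB
    omega
  have hdd : ∀ I : Set α, I ⊆ M.E → M.E \ (M.E \ I) = I := fun I hI => by
    rw [sdiff_sdiff_right_self]; exact inter_eq_right.2 hI
  refine ⟨?_, h.subQ, h.subP, h.card.symm, ?_, ?_⟩
  · intro x hx y hy hxy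
    apply h.inj hx hy
    simpa using hxy
  · intro I hI
    have h1 := h.le _ (low_of_neg hI)
    rw [hle P Q h.subP h.subQ h.card] at h1
    exact h1
  · intro B hB
    rw [h.base B hB, h.card]
    refine and_congr_right fun hc => ?_
    constructor
    · intro h1 I hI
      have h2 := h1 _ (low_of_neg hI)
      rw [hle P B h.subP hB (h.card.trans hc.symm), hle B Q hB h.subQ hc] at h2
      exact ⟨h2.2, h2.1⟩
    · intro h1 I hI
      have h2 := h1 _ (low_neg hI)
      rw [hle Q B h.subQ hB hc.symm, hle B P hB h.subP (hc.trans h.card.symm)] at h2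
      exact ⟨h2.2, h2.1⟩

theorem LP.R_iff [Finite α] (h : LP M κ P Q) {x a : α} (hx : x ∈ M.E) (hxQ : x ∉ Q) :
    R M Q x a ↔ Aft κ M.E P Q x a := by
  classical
  unfold R Aft
  refine and_congr_right fun haQ => ?_
  have haE := h.subQ haQ
  have hax : a ≠ x := by rintro rfl; exact hxQ haQ
  have hsub : insert x (Q \ {a}) ⊆ M.E := insert_subset hx (sdiff_subset.trans h.subQ)
  rw [h.base _ hsub]
  constructor
  · rintro ⟨_, h1⟩
    have hlt : κ a < κ x := by
      by_contra hc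
      have hne : κ a ≠ κ x := fun he => hax (h.inj haE hx he)
      have h2 := (h1 _ (low_loE x)).2
      have h3 := swap_card (I := loE κ M.E x) haQ hxQ
      have h4 : a ∉ loE κ M.E x := fun h => by
        have := h.2
        omega
      have h5 : x ∈ loE κ M.E x := ⟨hx, le_rfl⟩
      simp only [h4, h5, if_true, if_false] at h3
      omega
    refine ⟨hlt, ?_⟩
    intro I hI haI hxI
    have h2 := (h1 I hI).1
    have h3 := swap_card (I := I) haQ hxQ
    simp only [haI, hxI, if_true, if_false] at h3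
    omega
  · rintro ⟨hlt, h1⟩
    refine ⟨swap_ncard haQ hxQ, ?_⟩
    intro I hI
    have h2 := h.le I hI
    have h3 := swap_card (I := I) haQ hxQ
    by_cases haI : a ∈ I <;> by_cases hxI : x ∈ I
    · simp only [haI, hxI, if_true] at h3
      omega
    · have := h1 I hI haI hxI
      simp only [haI, hxI, if_true, if_false] at h3
      omega
    · have := hI.2 x hxI a haE haI
      omega
    · simp only [haI, hxI, if_false] at h3
      omega

lemma LP.touch_card (h : LP M κ P Q) {I B : Set α} (hI : Touch κ M.E P Q I)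
    (hB : M.IsBase B) : (B ∩ I).ncard = (Q ∩ I).ncard := by
  have h1 := ((h.base B hB.subset_ground).1 hB).2 I hI.1
  have h2 := hI.2
  omega

lemma LP.touch_sep [Finite α] (h : LP M κ P Q) {I : Set α} (hI : Touch κ M.E P Q I) :
    Sep M I := by
  classical
  intro B hB b hb c _ hcB hR
  have h1 := h.touch_card hI hB
  have h2 := h.touch_card hI hR
  have h3 := swap_card (I := I) hb hcB
  by_cases hbI : b ∈ I <;> by_cases hcI : c ∈ I
  · exact ⟨fun _ => hcI, fun _ => hbI⟩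
  · simp only [hbI, hcI, if_true, if_false] at h3
    omega
  · simp only [hbI, hcI, if_true, if_false] at h3
    omega
  · exact ⟨fun h => absurd h hbI, fun h => absurd h hcI⟩

lemma exists_last [Finite α] (x : α) : ∃ T, Last κ M.E P Q x T := by
  obtain ⟨T, hT, hmax⟩ := Set.exists_max_image {J | Touch κ M.E P Q J ∧ x ∉ J}
    (fun S => S.ncard) (toFinite _) ⟨∅, ⟨low_empty, by simp⟩, by simp⟩
  refine ⟨T, hT.1, hT.2, ?_⟩
  intro J hJ hxJ
  rcases low_total hJ.1 hT.1.1 with h1 | h1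
  · exact h1
  · have h2 := hmax J ⟨hJ, hxJ⟩
    have h3 : T = J := eq_of_subset_of_ncard_le h1 h2
    rw [h3]

lemma LP.lt_of_last (h : LP M κ P Q) {x : α} {T : Set α} (hT : Last κ M.E P Q x T) {I : Set α}
    (hI : Low κ M.E I) {u : α} (hu : u ∈ I) (huT : u ∉ T) (hx : x ∉ I) :
    (P ∩ I).ncard < (Q ∩ I).ncard := by
  refine lt_of_le_of_ne (h.le I hI) ?_
  intro he
  exact huT (hT.2.2 I ⟨hI, he⟩ hx hu)

lemma LP.aft_iff (h : LP M κ P Q) {x : α} {T : Set α} (hT : Last κ M.E P Q x T) {a : α} :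
    Aft κ M.E P Q x a ↔ a ∈ Q ∧ κ a < κ x ∧ a ∉ T := by
  unfold Aft
  refine and_congr_right fun haQ => and_congr_right fun hax => ?_
  constructor
  · intro h1 haT
    have := h1 T hT.1.1 haT hT.2.1
    have := hT.1.2
    omega
  · intro haT I hI haI hxI
    exact h.lt_of_last hT hI haI haT hxI

/-- An element outside `Q` is in a base iff it has a nonempty fundamental circuit. -/
lemma LP.NL_iff [Finite α] (h : LP M κ P Q) {x : α} (hx : x ∈ M.E) (hxQ : x ∉ Q) :
    (∃ a, R M Q x a) ↔ NL M x := by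
  classical
  constructor
  · rintro ⟨a, ha⟩
    exact ⟨_, ha.2, mem_insert _ _⟩
  · rintro ⟨B, hB, hxB⟩
    obtain ⟨T, hT⟩ := exists_last (M := M) (κ := κ) (P := P) (Q := Q) x
    have hTlo : T ⊆ lo κ M.E x := by
      intro y hy
      exact ⟨hT.1.1.1 hy, hT.1.1.2 y hy x hx hT.2.1⟩
    by_cases hne : ∃ z ∈ lo κ M.E x, z ∉ T
    · -- the next element after `T`
      obtain ⟨z, hz, hmin⟩ := Set.exists_min_image {z | z ∈ lo κ M.E x ∧ z ∉ T} κ (toFinite _) hne
      have hlow : Low κ M.E (insert z T) := by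
        refine ⟨insert_subset hz.1.1 hT.1.1.1, ?_⟩
        rintro y (rfl | hy) w hw hwT
        · by_cases hwx : κ w < κ x
          · have h1 := hmin w ⟨⟨hw, hwx⟩, fun h => hwT (mem_insert_of_mem _ h)⟩
            have h2 : κ y ≠ κ w := fun he => hwT (by
              rw [h.inj hz.1.1 hw he]; exact mem_insert _ _)
            omega
          · have := hz.1.2
            omega
        · exact hT.1.1.2 y hy w hw (fun h => hwT (mem_insert_of_mem _ h))
      have hxz : x ∉ insert z T := by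
        rintro (h1 | h1)
        · have := hz.1.2
          rw [← h1] at this
          omega
        · exact hT.2.1 h1
      have h1 := h.lt_of_last hT hlow (mem_insert _ _) hz.2 hxz
      have h2 : z ∈ Q := by
        by_contra hzQ
        have h3 : Q ∩ insert z T = Q ∩ T := by
          rw [inter_insert_of_notMem hzQ]
        have h4 : (P ∩ T).ncard ≤ (P ∩ insert z T).ncard :=
          ncard_le_ncard (inter_subset_inter_right _ (subset_insert _ _))
        rw [h3] at h1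
        have := hT.1.2
        omega
      refine ⟨z, (h.R_iff hx hxQ).2 ((h.aft_iff hT).2 ⟨h2, hz.1.2, hz.2⟩)⟩
    · -- the paths meet just before `x`
      exfalso
      push Not at hne
      have h1 : T = lo κ M.E x := subset_antisymm hTlo hne
      have h2 := ((h.base B hB.subset_ground).1 hB).2 _ (low_loE x)
      have h3 := h.touch_card hT.1 hB
      have h4 : loE κ M.E x = insert x (lo κ M.E x) := by
        ext y
        simp only [loE, lo, mem_ofPred_eq, mem_insert_iff]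
        constructor
        · rintro ⟨hy, hyx⟩
          rcases lt_or_eq_of_le hyx with h5 | h5
          · exact Or.inr ⟨hy, h5⟩
          · exact Or.inl (h.inj hy hx h5)
        · rintro (rfl | ⟨hy, hyx⟩)
          · exact ⟨hx, le_rfl⟩
          · exact ⟨hy, hyx.le⟩
      rw [h4, inter_insert_of_notMem hxQ, inter_insert_of_mem hxB, ncard_insert_of_notMem (by
        rintro ⟨_, h5⟩
        have := h5.2
        omega)] at h2
      rw [h1] at h3
      omega

lemma low_Wid (h : LP M κ P Q) (x : α) : Low κ M.E (Wid κ M.E Q x) := by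
  refine ⟨fun y hy => hy.1, ?_⟩
  intro y hy z hz hz'
  have : ∃ a ∈ Q, κ x < κ a ∧ κ a ≤ κ z := by
    by_contra hc
    push Not at hc
    exact hz' ⟨hz, fun a ha hxa => hc a ha hxa⟩
  obtain ⟨a, ha, h1, h2⟩ := this
  have := hy.2 a ha h1
  omega

/-- The elements of a set attached to `Q`. -/
theorem LP.mem_D [Finite α] (h : LP M κ P Q) {x : α} (hx : x ∈ M.E) (hxQ : x ∉ Q)
    {T : Set α} (hT : Last κ M.E P Q x T) {y : α} (hy : y ∈ M.E) :
    ((y ∈ Q ∧ R M Q x y) ∨ (y ∉ Q ∧ (∃ a, R M Q y a) ∧ ∀ a, R M Q y a → R M Q x a)) ↔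
      y ∈ Wid κ M.E Q x ∧ y ∉ T ∧ NL M y := by
  by_cases hyQ : y ∈ Q
  · have h1 : (y ∈ Q ∧ R M Q x y) ∨ (y ∉ Q ∧ (∃ a, R M Q y a) ∧ ∀ a, R M Q y a → R M Q x a) ↔
        R M Q x y := by
      constructor
      · rintro (h | h)
        · exact h.2
        · exact absurd hyQ h.1
      · intro h; exact Or.inl ⟨hyQ, h⟩
    rw [h1, h.R_iff hx hxQ, h.aft_iff hT]
    constructor
    · rintro ⟨_, h2, h3⟩
      exact ⟨⟨hy, fun a _ hxa => by omega⟩, h3, Q, h.baseQ, hyQ⟩
    · rintro ⟨h2, h3, _⟩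
      refine ⟨hyQ, ?_, h3⟩
      have h4 : ¬ κ x < κ y := fun hc => by
        have := h2.2 y hyQ hc
        omega
      have h5 : κ y ≠ κ x := fun he => hxQ (by rw [← h.inj hy hx he]; exact hyQ)
      omega
  · have h1 : (y ∈ Q ∧ R M Q x y) ∨ (y ∉ Q ∧ (∃ a, R M Q y a) ∧ ∀ a, R M Q y a → R M Q x a) ↔
        ((∃ a, R M Q y a) ∧ ∀ a, R M Q y a → R M Q x a) := by
      constructor
      · rintro (h | h)
        · exact absurd h.1 hyQ
        · exact h.2
      · intro h; exact Or.inr ⟨hyQ, h⟩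
    rw [h1, h.NL_iff hy hyQ]
    obtain ⟨T', hT'⟩ := exists_last (M := M) (κ := κ) (P := P) (Q := Q) y
    constructor
    · rintro ⟨h2, h3⟩
      obtain ⟨a₀, ha₀⟩ := (h.NL_iff hy hyQ).2 h2
      have h4 := (h.aft_iff hT').1 ((h.R_iff hy hyQ).1 ha₀)
      have h5 := (h.aft_iff hT).1 ((h.R_iff hx hxQ).1 (h3 a₀ ha₀))
      have ha₀E := h.subQ h4.1
      refine ⟨⟨hy, ?_⟩, ?_, h2⟩
      · intro a' ha' hxa'
        by_contra hc
        have h6 : κ a' ≠ κ y := fun he => hyQ (by rw [← h.inj (h.subQ ha') hy he]; exact ha')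
        have h7 : a' ∉ T' := by
          intro hc'
          have := hT'.1.1.2 a' hc' a₀ ha₀E h4.2.2
          omega
        have h8 : R M Q y a' := (h.R_iff hy hyQ).2 ((h.aft_iff hT').2 ⟨ha', by omega, h7⟩)
        have h9 := (h.aft_iff hT).1 ((h.R_iff hx hxQ).1 (h3 a' h8))
        omega
      · intro hyT
        have := hT.1.1.2 y hyT a₀ ha₀E h5.2.2
        omega
    · rintro ⟨h2, h3, h4⟩
      refine ⟨h4, ?_⟩
      obtain ⟨a₀, ha₀⟩ := (h.NL_iff hy hyQ).2 h4
      have h5 := (h.aft_iff hT').1 ((h.R_iff hy hyQ).1 ha₀)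
      have hxT' : x ∉ T' := by
        intro hc
        have h6 := hT'.1.1.2 x hc a₀ (h.subQ h5.1) h5.2.2
        have := h2.2 a₀ h5.1 h6
        omega
      have h6 : T' = T := subset_antisymm (hT.2.2 T' hT'.1 hxT') (hT'.2.2 T hT.1 h3)
      intro a ha
      have h7 := (h.aft_iff hT').1 ((h.R_iff hy hyQ).1 ha)
      refine (h.R_iff hx hxQ).2 ((h.aft_iff hT).2 ⟨h7.1, ?_, by rw [← h6]; exact h7.2.2⟩)
      have h8 : ¬ κ x < κ a := fun hc => by
        have := h2.2 a h7.1 hc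
        omega
      have h9 : κ a ≠ κ x := fun he => hxQ (by rw [← h.inj (h.subQ h7.1) hx he]; exact h7.1)
      omega

/-- The form of a set attached to `Q`. -/
theorem LP.InF_form [Finite α] (h : LP M κ P Q) {D : Set α} (hDE : D ⊆ M.E)
    (hD : InF M Q D) : ∃ x ∈ M.E, x ∉ Q ∧ NL M x ∧ x ∈ D ∧ ∃ T, Last κ M.E P Q x T ∧
      (∀ y, y ∈ D ↔ y ∈ Wid κ M.E Q x ∧ y ∉ T ∧ NL M y) ∧
      ∀ S, Sep M S → x ∈ S → D ⊆ S := by
  obtain ⟨x, hx, hxQ, h1, h2⟩ := hD
  obtain ⟨T, hT⟩ := exists_last (M := M) (κ := κ) (P := P) (Q := Q) x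
  have hNL := (h.NL_iff hx hxQ).1 h1
  have h3 : ∀ y, y ∈ D ↔ y ∈ Wid κ M.E Q x ∧ y ∉ T ∧ NL M y := by
    intro y
    constructor
    · intro hy
      exact (h.mem_D hx hxQ hT (hDE hy)).1 ((h2 y (hDE hy)).1 hy)
    · intro hy
      have hyE := hy.1.1
      exact (h2 y hyE).2 ((h.mem_D hx hxQ hT hyE).2 hy)
  refine ⟨x, hx, hxQ, hNL, ?_, T, hT, h3, ?_⟩
  · rw [h3]
    exact ⟨⟨hx, fun a _ ha => ha⟩, hT.2.1, hNL⟩
  · intro S hS hxS
    exact InF.subset_sep h.baseQ hx hxQ h2 hDE hS hxS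

lemma Comp.touch [Finite α] (h : LP M κ P Q) {K T : Set α} {x y : α} (hK : Comp M K)
    (hKE : K ⊆ M.E) (hT : Touch κ M.E P Q T) (hx : x ∈ K) (hxT : x ∉ T) (hy : y ∈ K) :
    y ∉ T := by
  rcases hK.subset_or hKE (h.touch_sep hT) with h1 | h1
  · exact absurd (h1 hx) hxT
  · exact fun hyT => disjoint_left.1 h1 hy hyT

theorem LP.chain [Finite α] (h : LP M κ P Q) {K D D' : Set α} (hKE : K ⊆ M.E)
    (hK : Comp M K) (hDE : D ⊆ M.E) (hDK : D ⊆ K) (hDE' : D' ⊆ M.E) (hDK' : D' ⊆ K)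
    (hD : InF M Q D) (hD' : InF M Q D') : D ⊆ D' ∨ D' ⊆ D := by
  obtain ⟨x, hx, hxQ, hNx, hxD, T, hT, h1, _⟩ := h.InF_form hDE hD
  obtain ⟨x', hx', hxQ', hNx', hxD', T', hT', h1', _⟩ := h.InF_form hDE' hD'
  have h2 : x ∉ T' := Comp.touch h hK hKE hT'.1 (hDK' hxD') hT'.2.1 (hDK hxD)
  have h2' : x' ∉ T := Comp.touch h hK hKE hT.1 (hDK hxD) hT.2.1 (hDK' hxD')
  have h3 : T = T' := subset_antisymm (hT'.2.2 T hT.1 h2') (hT.2.2 T' hT'.1 h2)
  rcases low_total (low_Wid h x) (low_Wid h x') with h4 | h4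
  · left
    intro y hy
    rw [h1'] ; rw [h1] at hy
    exact ⟨h4 hy.1, by rw [← h3]; exact hy.2.1, hy.2.2⟩
  · right
    intro y hy
    rw [h1] ; rw [h1'] at hy
    exact ⟨h4 hy.1, by rw [h3]; exact hy.2.1, hy.2.2⟩

theorem LP.cross [Finite α] (h : LP M κ P Q) {K D D' : Set α} (hKE : K ⊆ M.E)
    (hK : Comp M K) (hDE : D ⊆ M.E) (hDK : D ⊆ K) (hDE' : D' ⊆ M.E) (hDK' : D' ⊆ K)
    (hD : InF M Q D) (hD' : InF M P D') : Disjoint D D' ∨ K ⊆ D ∪ D' := by
  obtain ⟨x, hx, hxQ, hNx, hxD, T, hT, h1, _⟩ := h.InF_form hDE hD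
  obtain ⟨x', hx', hxQ', hNx', hxD', T', hT', h1', _⟩ := h.rev.InF_form hDE' hD'
  by_cases hdis : Disjoint D D'
  · exact Or.inl hdis
  · right
    rw [not_disjoint_iff] at hdis
    obtain ⟨u, huD, huD'⟩ := hdis
    intro z hz
    have hzN : NL M z := by
      by_contra hc
      rcases hK.subset_or hKE (sep_of_not_NL hc) with h2 | h2
      · have := h2 (hDK hxD)
        rw [mem_singleton_iff] at this
        rw [this] at hNx
        exact hc hNx
      · exact disjoint_left.1 h2 hz rfl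
    have hzT : z ∉ T := Comp.touch h hK hKE hT.1 (hDK hxD) hT.2.1 hz
    have hzT' : z ∉ T' := Comp.touch h.rev hK hKE hT'.1 (hDK' hxD') hT'.2.1 hz
    by_cases hzW : z ∈ Wid κ M.E Q x
    · left; rw [h1]; exact ⟨hzW, hzT, hzN⟩
    · right
      rw [h1']
      refine ⟨?_, hzT', hzN⟩
      by_contra hzW'
      have h3 := (low_Wid h x).2 u ((h1 u).1 huD).1 z (hKE hz) hzW
      have h4 := (low_Wid h.rev x').2 u ((h1' u).1 huD').1 z (hKE hz) hzW'
      simp only at h4
      omega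

/-- The main step: a failed exchange is explained by one of the sets. -/
theorem LP.fail [Finite α] (h : LP M κ P Q) {B : Set α} {b c : α} (hB : M.IsBase B) (hb : b ∈ B)
    (hc : c ∈ M.E) (hcB : c ∉ B) {I₀ : Set α} (hI₀ : Low κ M.E I₀)
    (hlt : (Q ∩ I₀).ncard < (insert c (B \ {b}) ∩ I₀).ncard) :
    ∃ K ⊆ M.E, Comp M K ∧ ∃ D ⊆ M.E, D ⊆ K ∧ (InF M Q D ∨ K ⊆ D) ∧
      c ∈ D ∧ b ∉ D ∧ Spn M B D := by
  classical
  have hbE := hB.subset_ground hb
  have hBle : ∀ I, Low κ M.E I → (B ∩ I).ncard ≤ (Q ∩ I).ncard := fun I hI =>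
    (((h.base B hB.subset_ground).1 hB).2 I hI).2
  by_cases hsep : ∃ S, Sep M S ∧ c ∈ S ∧ b ∉ S
  · obtain ⟨S, hS, hcS, hbS⟩ := hsep
    obtain ⟨K, hKE, hK, hcK, hKmin⟩ := exists_comp c hc
    exact ⟨K, hKE, hK, K, hKE, subset_rfl, Or.inr subset_rfl, hcK,
      fun hbK => hbS (hKmin S hS hcS hbK), hK.1.spn hB⟩
  push Not at hsep
  have hI₀' : c ∈ I₀ ∧ b ∉ I₀ ∧ (B ∩ I₀).ncard = (Q ∩ I₀).ncard := by
    have h1 := swap_card (I := I₀) hb hcB
    have h2 := hBle I₀ hI₀
    by_cases hbI : b ∈ I₀ <;> by_cases hcI : c ∈ I₀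
    · simp only [hbI, hcI, if_true] at h1; omega
    · simp only [hbI, hcI, if_true, if_false] at h1; omega
    · simp only [hbI, hcI, if_true, if_false] at h1
      exact ⟨hcI, hbI, by omega⟩
    · simp only [hbI, hcI, if_false] at h1; omega
  obtain ⟨I, hI, hmin⟩ := Set.exists_min_image {I | Low κ M.E I ∧ c ∈ I ∧ b ∉ I ∧
    (B ∩ I).ncard = (Q ∩ I).ncard} (fun S => S.ncard) (toFinite _) ⟨I₀, hI₀, hI₀'⟩
  obtain ⟨hIl, hcI, hbI, hBI⟩ := hI
  obtain ⟨x, hxI, hIx⟩ := exists_max_low hIl ⟨c, hcI⟩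
  have hx := hIl.1 hxI
  have hNc : NL M c := by
    by_contra hcon
    have := hsep {c} (sep_of_not_NL hcon) rfl
    rw [mem_singleton_iff] at this
    rw [this] at hb
    exact hcB hb
  have hins : loE κ M.E x = insert x (lo κ M.E x) := by
    ext y
    simp only [loE, lo, mem_ofPred_eq, mem_insert_iff]
    constructor
    · rintro ⟨hy, hyx⟩
      rcases lt_or_eq_of_le hyx with h5 | h5
      · exact Or.inr ⟨hy, h5⟩
      · exact Or.inl (h.inj hy hx h5)
    · rintro (rfl | ⟨hy, hyx⟩)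
      · exact ⟨hx, le_rfl⟩
      · exact ⟨hy, hyx.le⟩
  have hxlo : x ∉ lo κ M.E x := fun hc => by
    have := hc.2
    omega
  have hcount : ∀ A : Set α, (A ∩ I).ncard = (A ∩ lo κ M.E x).ncard + (if x ∈ A then 1 else 0) := by
    intro A
    rw [hIx, hins]
    split_ifs with hA
    · rw [inter_insert_of_mem hA, ncard_insert_of_notMem (fun hc => hxlo hc.2)]
    · rw [inter_insert_of_notMem hA, add_zero]
  have hkey : x ∉ Q ∧ NL M x := by
    have h1 := hcount B
    have h2 := hcount Q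
    have h3 := hBle _ (low_lo x)
    by_cases hcx : c = x
    · subst hcx
      refine ⟨?_, hNc⟩
      intro hcQ
      simp only [hcQ, hcB, if_true, if_false] at h1 h2
      omega
    · have hclo : c ∈ lo κ M.E x := by
        have := hcI
        rw [hIx, hins] at this
        exact this.resolve_left hcx
      have hblo : b ∉ lo κ M.E x := by
        intro hcon
        apply hbI
        rw [hIx, hins]
        exact mem_insert_of_mem _ hcon
      have h4 : (B ∩ lo κ M.E x).ncard ≠ (Q ∩ lo κ M.E x).ncard := by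
        intro he
        have h5 := hmin _ ⟨low_lo x, hclo, hblo, he⟩
        have h6 : (lo κ M.E x).ncard < I.ncard := by
          rw [hIx, hins]
          rw [ncard_insert_of_notMem hxlo]
          omega
        omega
      by_cases hxB : x ∈ B
      · refine ⟨?_, B, hB, hxB⟩
        intro hxQ
        simp only [hxB, hxQ, if_true] at h1 h2
        omega
      · exfalso
        by_cases hxQ : x ∈ Q
        · simp only [hxB, hxQ, if_true, if_false] at h1 h2
          omega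
        · simp only [hxB, hxQ, if_false] at h1 h2
          omega
  obtain ⟨hxQ, hNx⟩ := hkey
  obtain ⟨T, hT⟩ := exists_last (M := M) (κ := κ) (P := P) (Q := Q) x
  have hIW : I ⊆ Wid κ M.E Q x := by
    intro y hy
    rw [hIx] at hy
    refine ⟨hy.1, fun a _ ha => ?_⟩
    have := hy.2
    omega
  have hTI : T ⊆ I := by
    intro y hy
    rw [hIx]
    exact ⟨hT.1.1.1 hy, (hT.1.1.2 y hy x hx hT.2.1).le⟩
  have hQW : Q ∩ Wid κ M.E Q x = Q ∩ I := by
    ext y
    constructor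
    · rintro ⟨hyQ, hyW⟩
      refine ⟨hyQ, ?_⟩
      rw [hIx]
      refine ⟨hyW.1, ?_⟩
      by_contra hcon
      have := hyW.2 y hyQ (by omega)
      omega
    · rintro ⟨hyQ, hyI⟩
      exact ⟨hyQ, hIW hyI⟩
  set D : Set α := {y ∈ M.E | y ∈ Wid κ M.E Q x ∧ y ∉ T ∧ NL M y} with hD
  have hDE : D ⊆ M.E := fun y hy => hy.1
  have hDiff : ∀ y ∈ M.E, (y ∈ D ↔
      (y ∈ Q ∧ R M Q x y) ∨ (y ∉ Q ∧ (∃ a, R M Q y a) ∧ ∀ a, R M Q y a → R M Q x a)) := by
    intro y hy
    rw [h.mem_D hx hxQ hT hy]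
    exact ⟨fun h => h.2, fun h => ⟨hy, h⟩⟩
  obtain ⟨K, hKE, hK, hxK, hKmin⟩ := exists_comp x hx
  have hDK : D ⊆ K := InF.subset_sep h.baseQ hx hxQ hDiff hDE hK.1 hxK
  refine ⟨K, hKE, hK, D, hDE, hDK, Or.inl ⟨x, hx, hxQ, (h.NL_iff hx hxQ).2 hNx, hDiff⟩, ?_, ?_, ?_⟩
  · refine ⟨hc, hIW hcI, ?_, hNc⟩
    intro hcT
    have := hsep T (h.touch_sep hT.1) hcT
    exact hbI (hTI this)
  · rintro ⟨_, hbW, _, _⟩
    have h1 : insert b (B ∩ I) ⊆ B ∩ Wid κ M.E Q x := by
      rintro y (rfl | hy)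
      · exact ⟨hb, hbW⟩
      · exact ⟨hy.1, hIW hy.2⟩
    have h2 := ncard_le_ncard h1
    rw [ncard_insert_of_notMem (fun hc => hbI hc.2)] at h2
    have h3 := hBle _ (low_Wid h x)
    rw [hQW] at h3
    omega
  · intro Y _ hYi hYD hBY
    obtain ⟨B₂, hB₂, hYB⟩ := hYi.exists_isBase_superset
    have hcnt : ∀ B' : Set α, M.IsBase B' →
        (B' ∩ D).ncard + (B' ∩ T).ncard = (B' ∩ Wid κ M.E Q x).ncard := by
      intro B' hB'
      have h1 : B' ∩ Wid κ M.E Q x = (B' ∩ D) ∪ (B' ∩ T) := by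
        ext y
        constructor
        · rintro ⟨hyB, hyW⟩
          by_cases hyT : y ∈ T
          · exact Or.inr ⟨hyB, hyT⟩
          · exact Or.inl ⟨hyB, hyW.1, hyW, hyT, B', hB', hyB⟩
        · rintro (⟨hyB, hyD⟩ | ⟨hyB, hyT⟩)
          · exact ⟨hyB, hyD.2.1⟩
          · exact ⟨hyB, hIW (hTI hyT)⟩
      rw [h1, ncard_union_eq]
      rw [disjoint_left]
      rintro y ⟨_, hyD⟩ ⟨_, hyT⟩
      exact hyD.2.2.1 hyT
    have h1 := hcnt B hB
    have h2 := hcnt B₂ hB₂
    have h3 := h.touch_card hT.1 hB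
    have h4 := h.touch_card hT.1 hB₂
    have h5 := (((h.base B₂ hB₂.subset_ground).1 hB₂).2 _ (low_Wid h x)).2
    rw [hQW] at h5
    have h6 : (B ∩ I).ncard ≤ (B ∩ Wid κ M.E Q x).ncard :=
      ncard_le_ncard (inter_subset_inter_right _ hIW)
    have h7 : B ∩ D ⊆ B₂ ∩ D := fun y hy => ⟨hYB (hBY hy), hy.2⟩
    have h8 : B ∩ D = B₂ ∩ D := eq_of_subset_of_ncard_le h7 (by omega)
    intro y hy
    have : y ∈ B₂ ∩ D := ⟨hYB hy, hYD hy⟩
    rw [← h8] at this
    exact this.1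

/-- Matroids given by two paths have the property `Nice`. -/
theorem LP.nice [Finite α] (h : LP M κ P Q) : Nice M := by
  refine ⟨Q, h.subQ, P, h.subP, h.baseQ, h.baseP, ?_, ?_⟩
  · intro K hKE hK D hDE hDK D' hDE' hDK'
    exact ⟨h.chain hKE hK hDE hDK hDE' hDK', h.rev.chain hKE hK hDE hDK hDE' hDK',
      h.cross hKE hK hDE hDK hDE' hDK'⟩
  · intro B _ hB b _ hb c hc hcB hR
    have hsub : insert c (B \ {b}) ⊆ M.E := insert_subset hc (sdiff_subset.trans hB.subset_ground)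
    have hBc := ((h.base B hB.subset_ground).1 hB).1
    have h1 : ¬ M.IsBase (insert c (B \ {b})) := fun hcon => hR ⟨hb, hcon⟩
    rw [h.base _ hsub] at h1
    push Not at h1
    obtain ⟨I, hI, h2⟩ := h1 ((swap_ncard hb hcB).trans hBc)
    by_cases h3 : (P ∩ I).ncard ≤ (insert c (B \ {b}) ∩ I).ncard
    · have h4 := h2 h3
      obtain ⟨K, hKE, hK, D, hDE, hDK, h5, h6⟩ := h.fail hB hb hc hcB hI h4
      refine ⟨K, hKE, hK, D, hDE, hDK, ?_, h6⟩
      rcases h5 with h5 | h5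
      · exact Or.inl h5
      · exact Or.inr (Or.inr h5)
    · push Not at h3
      have h4 : (P ∩ (M.E \ I)).ncard < (insert c (B \ {b}) ∩ (M.E \ I)).ncard := by
        have e1 := compl_ncard (I := I) h.subP
        have e2 := compl_ncard (I := I) hsub
        have e3 := (swap_ncard hb hcB).trans hBc
        have e4 := h.card
        omega
      obtain ⟨K, hKE, hK, D, hDE, hDK, h5, h6⟩ := h.rev.fail hB hb hc hcB (low_neg hI) h4
      refine ⟨K, hKE, hK, D, hDE, hDK, ?_, h6⟩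
      rcases h5 with h5 | h5
      · exact Or.inr (Or.inl h5)
      · exact Or.inr (Or.inr h5)

end Pool.Agent.Q164.MSO
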