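import Pool.Agent.Q164.MSO.Nice

/-!
# Matroids given by two paths and an ordering
-/

set_option autoImplicit false

namespace Pool.Agent.Q164.MSO

open Set

variable {α : Type}

/-- `I` is an initial subset of `E` in the order given by the key `κ`. -/
def Low (κ : α → ℤ) (E I : Set α) : Prop :=
  I ⊆ E ∧ ∀ x ∈ I, ∀ z ∈ E, z ∉ I → κ x < κ z

/-- The bases of `M` are the sets between the two paths. -/
structure LP (M : Matroid α) (κ : α → ℤ) (P Q : Set α) : Prop where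
  inj : Set.InjOn κ M.E
  subP : P ⊆ M.E
  subQ : Q ⊆ M.E
  card : P.ncard = Q.ncard
  le : ∀ I, Low κ M.E I → (P ∩ I).ncard ≤ (Q ∩ I).ncard
  base : ∀ B ⊆ M.E, (M.IsBase B ↔ B.ncard = Q.ncard ∧ ∀ I, Low κ M.E I →
    (P ∩ I).ncard ≤ (B ∩ I).ncard ∧ (B ∩ I).ncard ≤ (Q ∩ I).ncard)

section low
variable {κ : α → ℤ} {E : Set α}

lemma low_empty : Low κ E ∅ := ⟨empty_subset _, by simp⟩

lemma low_self : Low κ E E := ⟨subset_rfl, fun _ _ z hz hz' => absurd hz hz'⟩

lemma low_total {I J : Set α} (hI : Low κ E I) (hJ : Low κ E J) : I ⊆ J ∨ J ⊆ I := by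
  by_contra hc
  push Not at hc
  obtain ⟨h1, h2⟩ := hc
  rw [not_subset] at h1 h2
  obtain ⟨x, hx, hx'⟩ := h1
  obtain ⟨y, hy, hy'⟩ := h2
  have h3 := hI.2 x hx y (hJ.1 hy) hy'
  have h4 := hJ.2 y hy x (hI.1 hx) hx'
  omega

/-- the elements up to `x` -/
def loE (κ : α → ℤ) (E : Set α) (x : α) : Set α := {y ∈ E | κ y ≤ κ x}

/-- the elements before `x` -/
def lo (κ : α → ℤ) (E : Set α) (x : α) : Set α := {y ∈ E | κ y < κ x}

lemma low_loE (x : α) : Low κ E (loE κ E x) := by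
  refine ⟨fun y hy => hy.1, ?_⟩
  intro y hy z hz hz'
  have : ¬ κ z ≤ κ x := fun h => hz' ⟨hz, h⟩
  have := hy.2
  omega

lemma low_lo (x : α) : Low κ E (lo κ E x) := by
  refine ⟨fun y hy => hy.1, ?_⟩
  intro y hy z hz hz'
  have : ¬ κ z < κ x := fun h => hz' ⟨hz, h⟩
  have := hy.2
  omega

lemma exists_max_low [Finite α] {I : Set α} (hI : Low κ E I) (hne : I.Nonempty) :
    ∃ x ∈ I, I = loE κ E x := by
  obtain ⟨x, hx, hmax⟩ := Set.exists_max_image I κ (toFinite I) hne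
  refine ⟨x, hx, ?_⟩
  ext y
  constructor
  · intro hy
    exact ⟨hI.1 hy, hmax y hy⟩
  · rintro ⟨hy, hyx⟩
    by_contra hc
    have := hI.2 x hx y hy hc
    omega

lemma low_neg {I : Set α} (hI : Low κ E I) : Low (fun x => - κ x) E (E \ I) := by
  refine ⟨sdiff_subset, ?_⟩
  intro x hx z hz hz'
  have hzI : z ∈ I := by
    by_contra hc
    exact hz' ⟨hz, hc⟩
  have := hI.2 z hzI x hx.1 hx.2
  show - κ x < - κ z
  omega

lemma low_of_neg {I : Set α} (hI : Low (fun x => - κ x) E I) : Low κ E (E \ I) := by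
  have := low_neg hI
  simpa using this

end low

open Classical in
lemma swap_card [Finite α] {B I : Set α} {b c : α} (hb : b ∈ B) (hc : c ∉ B) :
    (insert c (B \ {b}) ∩ I).ncard + (if b ∈ I then 1 else 0) =
      (B ∩ I).ncard + (if c ∈ I then 1 else 0) := by
  have hbc : b ≠ c := by rintro rfl; exact hc hb
  have h1 : (insert c (B \ {b}) ∩ I).ncard = ((B \ {b}) ∩ I).ncard + (if c ∈ I then 1 else 0) := by
    split_ifs with h
    · rw [insert_inter_of_mem h, ncard_insert_of_notMem]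
      rintro ⟨⟨h1, _⟩, _⟩
      exact hc h1
    · rw [insert_inter_of_notMem h, add_zero]
  have h2 : ((B \ {b}) ∩ I).ncard + (if b ∈ I then 1 else 0) = (B ∩ I).ncard := by
    split_ifs with h
    · have : (B \ {b}) ∩ I = (B ∩ I) \ {b} := by
        ext y; simp only [mem_inter_iff, mem_sdiff, mem_singleton_iff]; tauto
      rw [this]
      exact ncard_sdiff_singleton_add_one ⟨hb, h⟩
    · have : (B \ {b}) ∩ I = B ∩ I := by
        ext y; simp only [mem_inter_iff, mem_sdiff, mem_singleton_iff]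
        constructor
        · rintro ⟨⟨h1, _⟩, h2⟩; exact ⟨h1, h2⟩
        · rintro ⟨h1, h2⟩
          refine ⟨⟨h1, ?_⟩, h2⟩
          rintro rfl
          exact h h2
      rw [this, add_zero]
  omega

lemma swap_ncard [Finite α] {B : Set α} {b c : α} (hb : b ∈ B) (hc : c ∉ B) :
    (insert c (B \ {b})).ncard = B.ncard := by
  classical
  have := swap_card (I := univ) hb hc
  simpa using this

/-! ### Separators -/

section sep
variable {M : Matroid α}

theorem sep_card [Finite α] {S : Set α} (hS : Sep M S) (n : ℕ) :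
    ∀ B₁ B₂ : Set α, M.IsBase B₁ → M.IsBase B₂ → (B₁ \ B₂).ncard = n →
      (B₁ ∩ S).ncard = (B₂ ∩ S).ncard := by
  classical
  induction n using Nat.strong_induction_on with
  | _ n ih =>
    intro B₁ B₂ h₁ h₂ hn
    by_cases hne : (B₁ \ B₂) = ∅
    · have : B₁ = B₂ := h₁.eq_of_subset_isBase h₂ (sdiff_eq_empty.1 hne)
      rw [this]
    · obtain ⟨b, hb⟩ := nonempty_iff_ne_empty.2 hne
      obtain ⟨c, hc, hB⟩ := h₁.exchange h₂ hb
      have h3 := hS B₁ h₁ b hb.1 c (h₂.subset_ground hc.1) hc.2 hB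
      have h4 := swap_card (I := S) hb.1 hc.2
      have h5 : (insert c (B₁ \ {b}) \ B₂).ncard < n := by
        rw [← hn]
        refine ncard_lt_ncard ?_
        refine ⟨?_, ?_⟩
        · rintro y ⟨rfl | hy, hy2⟩
          · exact absurd hc.1 hy2
          · exact ⟨hy.1, hy2⟩
        · intro hcon
          rcases (hcon hb).1 with h | h
          · exact hc.2 (h ▸ hb.1)
          · exact h.2 rfl
      have h6 := ih _ h5 _ B₂ hB h₂ rfl
      rw [← h6]
      by_cases hbS : b ∈ S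
      · have hcS := h3.1 hbS
        simp only [hbS, hcS, if_true] at h4
        omega
      · have hcS : c ∉ S := fun h => hbS (h3.2 h)
        simp only [hbS, hcS, if_false] at h4
        omega

lemma Sep.card [Finite α] {S B₁ B₂ : Set α} (hS : Sep M S) (h₁ : M.IsBase B₁)
    (h₂ : M.IsBase B₂) : (B₁ ∩ S).ncard = (B₂ ∩ S).ncard :=
  sep_card hS _ B₁ B₂ h₁ h₂ rfl

lemma Sep.inter {S S' : Set α} (h : Sep M S) (h' : Sep M S') : Sep M (S ∩ S') := by
  intro B hB b hb c hc hcB hR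
  have h1 := h B hB b hb c hc hcB hR
  have h2 := h' B hB b hb c hc hcB hR
  simp only [mem_inter_iff]
  tauto

lemma Sep.compl {S : Set α} (h : Sep M S) : Sep M (M.E \ S) := by
  intro B hB b hb c hc hcB hR
  have h1 := h B hB b hb c hc hcB hR
  have h2 := hB.subset_ground hb
  simp only [mem_sdiff]
  tauto

lemma sep_ground : Sep M M.E := by
  intro B hB b hb c hc hcB hR
  have h2 := hB.subset_ground hb
  tauto

lemma exists_comp [Finite α] (x : α) (hx : x ∈ M.E) : ∃ K ⊆ M.E, Comp M K ∧ x ∈ K ∧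
    ∀ S, Sep M S → x ∈ S → K ⊆ S := by
  obtain ⟨K, hK, hmin⟩ := Set.exists_min_image {S | S ⊆ M.E ∧ Sep M S ∧ x ∈ S}
    (fun S => S.ncard) (toFinite _) ⟨M.E, subset_rfl, sep_ground, hx⟩
  obtain ⟨hKE, hKs, hxK⟩ := hK
  have hsub : ∀ S, Sep M S → x ∈ S → K ⊆ S := by
    intro S hS hxS
    have h1 := hmin (K ∩ S) ⟨inter_subset_left.trans hKE, hKs.inter hS, hxK, hxS⟩
    have h2 : K ∩ S = K := eq_of_subset_of_ncard_le inter_subset_left h1
    rw [← h2]; exact inter_subset_right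
  refine ⟨K, hKE, ⟨hKs, ?_, ?_⟩, hxK, hsub⟩
  · rintro rfl; exact hxK
  · intro T hTE hT hTK
    by_cases hxT : x ∈ T
    · right; exact hsub T hT hxT
    · left
      have h1 := hsub (K ∩ (M.E \ T)) (hKs.inter hT.compl) ⟨hxK, hx, hxT⟩
      ext y
      simp only [mem_empty_iff_false, iff_false]
      intro hy
      exact (h1 (hTK hy)).2.2 hy

lemma Comp.subset_or {K S : Set α} (hK : Comp M K) (hKE : K ⊆ M.E) (hS : Sep M S) :
    K ⊆ S ∨ Disjoint K S := by
  rcases hK.2.2 (K ∩ S) (inter_subset_left.trans hKE) (hK.1.inter hS) inter_subset_left with h | h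
  · right; rw [disjoint_iff_inter_eq_empty]; exact h
  · left; exact fun x hx => (h hx).2

lemma Sep.spn [Finite α] {S B : Set α} (hS : Sep M S) (hB : M.IsBase B) : Spn M B S := by
  intro Y _ hYi hYS hBY
  obtain ⟨B₂, hB₂, hYB⟩ := hYi.exists_isBase_superset
  have h1 := hS.card hB hB₂
  have h2 : B ∩ S ⊆ B₂ ∩ S := fun y hy => ⟨hYB (hBY hy), hy.2⟩
  have h3 : B ∩ S = B₂ ∩ S := eq_of_subset_of_ncard_le h2 h1.ge
  intro y hy
  have : y ∈ B₂ ∩ S := ⟨hYB hy, hYS hy⟩
  rw [← h3] at this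
  exact this.1

/-- `y` is in some base -/
def NL (M : Matroid α) (y : α) : Prop := ∃ B, M.IsBase B ∧ y ∈ B

lemma sep_of_not_NL {z : α} (hz : ¬ NL M z) : Sep M {z} := by
  intro B hB b hb c hc hcB hR
  constructor
  · rintro rfl
    exact absurd ⟨B, hB, hb⟩ hz
  · rintro rfl
    exact absurd ⟨_, hR, mem_insert _ _⟩ hz

/-- the sets attached to a base lie in a component -/
lemma InF.subset_sep {Q D S : Set α} (hQ : M.IsBase Q) {x : α} (hx : x ∈ M.E) (hxQ : x ∉ Q)
    (hD : ∀ y ∈ M.E, (y ∈ D ↔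
      (y ∈ Q ∧ R M Q x y) ∨ (y ∉ Q ∧ (∃ a, R M Q y a) ∧ ∀ a, R M Q y a → R M Q x a)))
    (hDE : D ⊆ M.E) (hS : Sep M S) (hxS : x ∈ S) : D ⊆ S := by
  intro y hy
  rcases (hD y (hDE hy)).1 hy with ⟨h1, h2⟩ | ⟨h1, ⟨a, ha⟩, h3⟩
  · exact (hS Q hQ y h1 x hx hxQ h2.2).2 hxS
  · have h4 := h3 a ha
    have h5 := (hS Q hQ a h4.1 x hx hxQ h4.2).2 hxS
    exact (hS Q hQ a ha.1 y (hDE hy) h1 ha.2).1 h5

end sep

end Pool.Agent.Q164.MSO
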