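import Mathlib

/-!
# The monadic second-order logic of matroids
-/

set_option autoImplicit false

namespace Pool.Agent.Q164.MSO

/-- The formulas of `MS₀` with `n` free variables `x_0, ..., x_{n-1}`, which range over subsets of
the ground set. The atomic formulas are `Ind (x_i)` and `x_i ⊆ x_j`. In `all φ` the new variable is
`x_0` and the variable `x_i` of the formula becomes `x_{i+1}` in `φ`. The other connectives and the
existential quantifier are abbreviations. A sentence is a formula with no free variables. -/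
inductive Fml : ℕ → Type
  | ind {n : ℕ} (i : Fin n) : Fml n
  | sub {n : ℕ} (i j : Fin n) : Fml n
  | neg {n : ℕ} (φ : Fml n) : Fml n
  | and {n : ℕ} (φ ψ : Fml n) : Fml n
  | all {n : ℕ} (φ : Fml (n + 1)) : Fml n

/-- The formula `φ` holds in the matroid `M` for the values `v i` of the variables. -/
def Sat {α : Type} (M : Matroid α) : {n : ℕ} → Fml n → (Fin n → Set α) → Prop
  | _, .ind i, v => M.Indep (v i)
  | _, .sub i j, v => v i ⊆ v j
  | _, .neg φ, v => ¬ Sat M φ v
  | _, .and φ ψ, v => Sat M φ v ∧ Sat M ψ v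
  | _, .all φ, v => ∀ X ⊆ M.E, Sat M φ (Fin.cons X v)

/-- A relation between subsets of the ground set is definable. -/
def Def (n : ℕ) (R : (α : Type) → Matroid α → (Fin n → Set α) → Prop) : Prop :=
  ∃ φ : Fml n, ∀ (α : Type) [Finite α] (M : Matroid α) (v : Fin n → Set α),
    (∀ i, v i ⊆ M.E) → (Sat M φ v ↔ R α M v)

section
variable {n : ℕ}

theorem def_ind (i : Fin n) : Def n (fun _ M v => M.Indep (v i)) :=
  ⟨.ind i, fun _ _ _ _ _ => Iff.rfl⟩

theorem def_sub (i j : Fin n) : Def n (fun _ _ v => v i ⊆ v j) :=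
  ⟨.sub i j, fun _ _ _ _ _ => Iff.rfl⟩

variable {R S : (α : Type) → Matroid α → (Fin n → Set α) → Prop}

theorem Def.congr (h : Def n R)
    (hRS : ∀ (α : Type) [Finite α] (M : Matroid α) (v : Fin n → Set α), (∀ i, v i ⊆ M.E) →
      (R α M v ↔ S α M v)) : Def n S := by
  obtain ⟨φ, hφ⟩ := h
  exact ⟨φ, fun α _ M v hv => (hφ α M v hv).trans (hRS α M v hv)⟩

theorem Def.not (h : Def n R) : Def n (fun α M v => ¬ R α M v) := by
  obtain ⟨φ, hφ⟩ := h
  exact ⟨.neg φ, fun α _ M v hv => not_congr (hφ α M v hv)⟩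

theorem Def.and (h : Def n R) (h' : Def n S) : Def n (fun α M v => R α M v ∧ S α M v) := by
  obtain ⟨φ, hφ⟩ := h
  obtain ⟨ψ, hψ⟩ := h'
  exact ⟨.and φ ψ, fun α _ M v hv => and_congr (hφ α M v hv) (hψ α M v hv)⟩

theorem Def.or (h : Def n R) (h' : Def n S) : Def n (fun α M v => R α M v ∨ S α M v) :=
  (h.not.and h'.not).not.congr (fun α _ M v _ => by tauto)

theorem Def.imp (h : Def n R) (h' : Def n S) : Def n (fun α M v => R α M v → S α M v) :=
  (h.not.or h').congr (fun α _ M v _ => by tauto)

theorem Def.iff (h : Def n R) (h' : Def n S) : Def n (fun α M v => (R α M v ↔ S α M v)) :=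
  ((h.imp h').and (h'.imp h)).congr (fun α _ M v _ => by tauto)

theorem Def.all {T : (α : Type) → Matroid α → Set α → (Fin n → Set α) → Prop}
    (h : Def (n + 1) (fun α M w => T α M (w 0) (fun i => w i.succ))) :
    Def n (fun α M v => ∀ X ⊆ M.E, T α M X v) := by
  obtain ⟨φ, hφ⟩ := h
  refine ⟨.all φ, fun α _ M v hv => ?_⟩
  refine forall_congr' fun X => forall_congr' fun hX => ?_
  have := hφ α M (Fin.cons X v) (by
    intro i
    refine Fin.cases ?_ (fun j => ?_) i
    · simpa using hX
    · simpa using hv j)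
  simpa using this

theorem Def.ex {T : (α : Type) → Matroid α → Set α → (Fin n → Set α) → Prop}
    (h : Def (n + 1) (fun α M w => T α M (w 0) (fun i => w i.succ))) :
    Def n (fun α M v => ∃ X ⊆ M.E, T α M X v) :=
  (Def.all (T := fun α M X v => ¬ T α M X v) h.not).not.congr (fun α _ M v _ => by
    push Not; rfl)

/-! ### Basic relations -/

theorem def_empty (i : Fin n) : Def n (fun _ _ v => v i = ∅) :=
  (Def.all (T := fun _ _ X v => v i ⊆ X) (def_sub i.succ 0)).congr (fun α _ M v _ => by
    constructor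
    · intro h
      exact Set.subset_empty_iff.1 (h ∅ (Set.empty_subset _))
    · intro h X _
      rw [h]; exact Set.empty_subset _)

theorem def_sing (i : Fin n) : Def n (fun _ _ v => ∃ x, v i = {x}) :=
  ((def_empty i).not.and (Def.all (T := fun _ _ X v => X ⊆ v i → (X = ∅ ∨ v i ⊆ X))
    ((def_sub 0 i.succ).imp ((def_empty 0).or (def_sub i.succ 0))))).congr (fun α _ M v hv => by
    constructor
    · rintro ⟨h1, h2⟩
      obtain ⟨x, hx⟩ := Set.nonempty_iff_ne_empty.2 h1
      refine ⟨x, ?_⟩
      rcases h2 {x} (Set.singleton_subset_iff.2 (hv i hx)) (Set.singleton_subset_iff.2 hx) with h | h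
      · simp at h
      · exact subset_antisymm h (Set.singleton_subset_iff.2 hx)
    · rintro ⟨x, hx⟩
      refine ⟨by rw [hx]; simp, ?_⟩
      intro X _ hX
      rw [hx] at hX ⊢
      rcases Set.subset_singleton_iff_eq.1 hX with h | h
      · exact Or.inl h
      · right; rw [h])

theorem Def.allE {T : (α : Type) → Matroid α → Set α → (Fin n → Set α) → Prop}
    (h : Def (n + 1) (fun α M w => T α M (w 0) (fun i => w i.succ))) :
    Def n (fun α M v => ∀ x ∈ M.E, T α M {x} v) :=
  (Def.all (T := fun α M X v => (∃ x, X = {x}) → T α M X v) ((def_sing 0).imp h)).congr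
    (fun α _ M v _ => by
      constructor
      · intro h x hx
        exact h {x} (Set.singleton_subset_iff.2 hx) ⟨x, rfl⟩
      · rintro h X hX ⟨x, rfl⟩
        exact h x (Set.singleton_subset_iff.1 hX))

theorem Def.exE {T : (α : Type) → Matroid α → Set α → (Fin n → Set α) → Prop}
    (h : Def (n + 1) (fun α M w => T α M (w 0) (fun i => w i.succ))) :
    Def n (fun α M v => ∃ x ∈ M.E, T α M {x} v) :=
  (Def.allE (T := fun α M X v => ¬ T α M X v) h.not).not.congr (fun α _ M v _ => by
    push Not; rfl)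

theorem def_base (i : Fin n) : Def n (fun _ M v => M.IsBase (v i)) :=
  ((def_ind i).and (Def.all (T := fun _ M X v => M.Indep X → v i ⊆ X → X ⊆ v i)
    ((def_ind 0).imp ((def_sub i.succ 0).imp (def_sub 0 i.succ))))).congr (fun α _ M v _ => by
    rw [Matroid.isBase_iff_maximal_indep]
    constructor
    · rintro ⟨h1, h2⟩
      exact ⟨h1, fun X hX hvX => h2 X (Matroid.Indep.subset_ground hX) hX hvX⟩
    · rintro ⟨h1, h2⟩
      exact ⟨h1, fun X _ hX hvX => h2 hX hvX⟩)

theorem def_disj (i j : Fin n) : Def n (fun _ _ v => Disjoint (v i) (v j)) :=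
  (Def.all (T := fun _ _ X v => X ⊆ v i → X ⊆ v j → X = ∅)
    ((def_sub 0 i.succ).imp ((def_sub 0 j.succ).imp (def_empty 0)))).congr (fun α _ M v hv => by
    rw [Set.disjoint_iff_inter_eq_empty]
    constructor
    · intro h
      exact h _ (Set.inter_subset_left.trans (hv i)) Set.inter_subset_left Set.inter_subset_right
    · intro h X _ h1 h2
      exact Set.subset_empty_iff.1 (h ▸ Set.subset_inter h1 h2))

theorem def_subU (i j k : Fin n) : Def n (fun _ _ v => v i ⊆ v j ∪ v k) :=
  (Def.all (T := fun _ _ X v => v j ⊆ X → v k ⊆ X → v i ⊆ X)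
    ((def_sub j.succ 0).imp ((def_sub k.succ 0).imp (def_sub i.succ 0)))).congr
    (fun α _ M v hv => by
    constructor
    · intro h
      exact h _ (Set.union_subset (hv j) (hv k)) Set.subset_union_left Set.subset_union_right
    · intro h X _ h1 h2
      exact h.trans (Set.union_subset h1 h2))

end

end Pool.Agent.Q164.MSO
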