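import Pool.Agent.Q164.MSO.Logic

/-!
# The definable property
-/

set_option autoImplicit false

namespace Pool.Agent.Q164.MSO

/-- `Q - a + x` is a base, where `a ∈ Q`. -/
def R {α : Type} (M : Matroid α) (Q : Set α) (x a : α) : Prop :=
  a ∈ Q ∧ M.IsBase (insert x (Q \ {a}))

/-- `D` is one of the sets attached to the base `Q`. -/
def InF {α : Type} (M : Matroid α) (Q D : Set α) : Prop :=
  ∃ x ∈ M.E, x ∉ Q ∧ (∃ a, R M Q x a) ∧ ∀ y ∈ M.E, (y ∈ D ↔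
    (y ∈ Q ∧ R M Q x y) ∨ (y ∉ Q ∧ (∃ a, R M Q y a) ∧ ∀ a, R M Q y a → R M Q x a))

/-- `S` is a separator. -/
def Sep {α : Type} (M : Matroid α) (S : Set α) : Prop :=
  ∀ B, M.IsBase B → ∀ b ∈ B, ∀ c ∈ M.E, c ∉ B → M.IsBase (insert c (B \ {b})) → (b ∈ S ↔ c ∈ S)

/-- `K` is a component: a minimal nonempty separator. -/
def Comp {α : Type} (M : Matroid α) (K : Set α) : Prop :=
  Sep M K ∧ K ≠ ∅ ∧ ∀ T ⊆ M.E, Sep M T → T ⊆ K → (T = ∅ ∨ K ⊆ T)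

/-- `B ∩ D` is a maximal independent subset of `D`. -/
def Spn {α : Type} (M : Matroid α) (B D : Set α) : Prop :=
  ∀ Y ⊆ M.E, M.Indep Y → Y ⊆ D → B ∩ D ⊆ Y → Y ⊆ B

/-- The definable property of a matroid. -/
def Nice {α : Type} (M : Matroid α) : Prop :=
  ∃ Q ⊆ M.E, ∃ P ⊆ M.E, M.IsBase Q ∧ M.IsBase P ∧
    (∀ K ⊆ M.E, Comp M K → ∀ D ⊆ M.E, D ⊆ K → ∀ D' ⊆ M.E, D' ⊆ K →
      (InF M Q D → InF M Q D' → (D ⊆ D' ∨ D' ⊆ D)) ∧
      (InF M P D → InF M P D' → (D ⊆ D' ∨ D' ⊆ D)) ∧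
      (InF M Q D → InF M P D' → (Disjoint D D' ∨ K ⊆ D ∪ D'))) ∧
    ∀ B ⊆ M.E, M.IsBase B → ∀ b ∈ M.E, b ∈ B → ∀ c ∈ M.E, c ∉ B → ¬ R M B c b →
      ∃ K ⊆ M.E, Comp M K ∧ ∃ D ⊆ M.E, D ⊆ K ∧ (InF M Q D ∨ InF M P D ∨ K ⊆ D) ∧
        c ∈ D ∧ b ∉ D ∧ Spn M B D

/-- `R` in terms of sets. -/
def RS {α : Type} (M : Matroid α) (Q X A : Set α) : Prop :=
  A ⊆ Q ∧ ∃ B ⊆ M.E, M.IsBase B ∧ B ⊆ Q ∪ X ∧ X ⊆ B ∧ Disjoint A B ∧ Q ⊆ B ∪ A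

theorem RS_iff {α : Type} {M : Matroid α} {Q : Set α} {x a : α} (hx : x ∉ Q) :
    RS M Q {x} {a} ↔ R M Q x a := by
  unfold RS R
  constructor
  · rintro ⟨h1, B, _, hB, h2, h3, h4, h5⟩
    rw [Set.singleton_subset_iff] at h1 h3
    rw [Set.disjoint_singleton_left] at h4
    refine ⟨h1, ?_⟩
    have : insert x (Q \ {a}) = B := by
      ext y
      constructor
      · rintro (rfl | ⟨hy, hya⟩)
        · exact h3
        · rcases h5 hy with h | h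
          · exact h
          · exact absurd h hya
      · intro hy
        rcases h2 hy with h | h
        · right
          refine ⟨h, ?_⟩
          rintro rfl
          exact h4 hy
        · left; exact h
    rw [this]; exact hB
  · rintro ⟨h1, hB⟩
    have hax : a ≠ x := by rintro rfl; exact hx h1
    refine ⟨Set.singleton_subset_iff.2 h1, _, hB.subset_ground, hB, ?_, ?_, ?_, ?_⟩
    · rintro y (rfl | hy)
      · right; rfl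
      · left; exact hy.1
    · rw [Set.singleton_subset_iff]; left; rfl
    · rw [Set.disjoint_singleton_left]
      rintro (h | h)
      · exact hax h
      · exact h.2 rfl
    · intro y hy
      by_cases hya : y = a
      · right; exact hya
      · left; right; exact ⟨hy, hya⟩

section
variable {n : ℕ}

theorem def_RS (q x a : Fin n) : Def n (fun _ M v => RS M (v q) (v x) (v a)) :=
  (def_sub a q).and (Def.ex (T := fun _ M B v => M.IsBase B ∧ B ⊆ v q ∪ v x ∧ v x ⊆ B ∧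
    Disjoint (v a) B ∧ v q ⊆ B ∪ v a)
    ((def_base 0).and ((def_subU 0 q.succ x.succ).and ((def_sub x.succ 0).and
      ((def_disj a.succ 0).and (def_subU q.succ 0 a.succ))))))

lemma R_mem {α : Type} {M : Matroid α} {Q : Set α} {x a : α} (h : R M Q x a) (hQ : Q ⊆ M.E) :
    a ∈ M.E := hQ h.1

theorem def_InF (q d : Fin n) : Def n (fun _ M v => InF M (v q) (v d)) := by
  have key : Def n (fun _ M v => ∃ x ∈ M.E, ¬ {x} ⊆ v q ∧ (∃ a ∈ M.E, RS M (v q) {x} {a}) ∧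
      ∀ y ∈ M.E, ({y} ⊆ v d ↔ (({y} ⊆ v q ∧ RS M (v q) {x} {y}) ∨
        (¬ {y} ⊆ v q ∧ (∃ a ∈ M.E, RS M (v q) {y} {a}) ∧
          ∀ a ∈ M.E, RS M (v q) {y} {a} → RS M (v q) {x} {a})))) := by
    refine Def.exE (T := fun _ M X v => ¬ X ⊆ v q ∧ (∃ a ∈ M.E, RS M (v q) X {a}) ∧
      ∀ y ∈ M.E, ({y} ⊆ v d ↔ (({y} ⊆ v q ∧ RS M (v q) X {y}) ∨
        (¬ {y} ⊆ v q ∧ (∃ a ∈ M.E, RS M (v q) {y} {a}) ∧
          ∀ a ∈ M.E, RS M (v q) {y} {a} → RS M (v q) X {a})))) ?_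
    refine (def_sub _ _).not.and ((Def.exE (T := fun _ M A v => RS M (v q.succ) (v 0) A)
      (def_RS _ _ _)).and (Def.allE (T := fun _ M Y v => (Y ⊆ v d.succ ↔
        ((Y ⊆ v q.succ ∧ RS M (v q.succ) (v 0) Y) ∨
        (¬ Y ⊆ v q.succ ∧ (∃ a ∈ M.E, RS M (v q.succ) Y {a}) ∧
          ∀ a ∈ M.E, RS M (v q.succ) Y {a} → RS M (v q.succ) (v 0) {a})))) ?_))
    refine (def_sub _ _).iff (((def_sub _ _).and (def_RS _ _ _)).or ((def_sub _ _).not.and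
      ((Def.exE (T := fun _ M A v => RS M (v q.succ.succ) (v 0) A) (def_RS _ _ _)).and
        (Def.allE (T := fun _ M A v => RS M (v q.succ.succ) (v 0) A →
          RS M (v q.succ.succ) (v (Fin.succ 0)) A) ((def_RS _ _ _).imp (def_RS _ _ _))))))
  refine key.congr ?_
  intro α _ M v hv
  unfold InF
  refine exists_congr fun x => and_congr_right fun hx => ?_
  simp only [Set.singleton_subset_iff]
  refine and_congr_right fun hxq => ?_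
  have hex : ∀ y, y ∉ v q → ((∃ a ∈ M.E, RS M (v q) {y} {a}) ↔ ∃ a, R M (v q) y a) := by
    intro y hy
    constructor
    · rintro ⟨a, _, h⟩; exact ⟨a, (RS_iff hy).1 h⟩
    · rintro ⟨a, h⟩; exact ⟨a, R_mem h (hv q), (RS_iff hy).2 h⟩
  refine and_congr (hex x hxq) ?_
  refine forall_congr' fun y => forall_congr' fun hy => ?_
  refine iff_congr Iff.rfl (or_congr ?_ ?_)
  · rw [RS_iff hxq]
  · refine and_congr_right fun hyq => and_congr (hex y hyq) ?_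
    constructor
    · intro h a ha
      exact (RS_iff hxq).1 (h a (R_mem ha (hv q)) ((RS_iff hyq).2 ha))
    · intro h a _ ha
      exact (RS_iff hxq).2 (h a ((RS_iff hyq).1 ha))

theorem def_Sep (s : Fin n) : Def n (fun _ M v => Sep M (v s)) := by
  have key : Def n (fun _ M v => ∀ B ⊆ M.E, M.IsBase B → ∀ b ∈ M.E, ∀ c ∈ M.E, ¬ {c} ⊆ B →
      RS M B {c} {b} → ({b} ⊆ v s ↔ {c} ⊆ v s)) := by
    refine Def.all (T := fun _ M B v => M.IsBase B → ∀ b ∈ M.E, ∀ c ∈ M.E, ¬ {c} ⊆ B →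
      RS M B {c} {b} → ({b} ⊆ v s ↔ {c} ⊆ v s)) ?_
    refine (def_base _).imp (Def.allE (T := fun _ M b v => ∀ c ∈ M.E, ¬ {c} ⊆ v 0 →
      RS M (v 0) {c} b → (b ⊆ v s.succ ↔ {c} ⊆ v s.succ)) ?_)
    refine Def.allE (T := fun _ M c v => ¬ c ⊆ v (Fin.succ 0) →
      RS M (v (Fin.succ 0)) c (v 0) → (v 0 ⊆ v s.succ.succ ↔ c ⊆ v s.succ.succ)) ?_
    exact (def_sub _ _).not.imp ((def_RS _ _ _).imp ((def_sub _ _).iff (def_sub _ _)))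
  refine key.congr ?_
  intro α _ M v hv
  unfold Sep
  simp only [Set.singleton_subset_iff]
  constructor
  · intro h B hB b hb c hc hcB hR
    exact h B hB.subset_ground hB b (hB.subset_ground hb) c hc hcB ((RS_iff hcB).2 ⟨hb, hR⟩)
  · intro h B _ hB b _ c hc hcB hR
    have := (RS_iff hcB).1 hR
    exact h B hB b this.1 c hc hcB this.2

theorem def_Comp (k : Fin n) : Def n (fun _ M v => Comp M (v k)) :=
  (def_Sep k).and ((def_empty k).not.and (Def.all (T := fun _ M X v => Sep M X → X ⊆ v k →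
    (X = ∅ ∨ v k ⊆ X)) ((def_Sep 0).imp ((def_sub 0 k.succ).imp
      ((def_empty 0).or (def_sub k.succ 0))))))

theorem def_Spn (b d : Fin n) : Def n (fun _ M v => Spn M (v b) (v d)) := by
  have key : Def n (fun _ M v => ∀ Y ⊆ M.E, M.Indep Y → Y ⊆ v d →
      (∀ Z ⊆ M.E, Z ⊆ v b → Z ⊆ v d → Z ⊆ Y) → Y ⊆ v b) := by
    refine Def.all (T := fun _ M Y v => M.Indep Y → Y ⊆ v d →
      (∀ Z ⊆ M.E, Z ⊆ v b → Z ⊆ v d → Z ⊆ Y) → Y ⊆ v b) ?_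
    refine (def_ind _).imp ((def_sub _ _).imp ((Def.all (T := fun _ _ Z v =>
      Z ⊆ v b.succ → Z ⊆ v d.succ → Z ⊆ v 0) ?_).imp (def_sub _ _)))
    exact (def_sub _ _).imp ((def_sub _ _).imp (def_sub _ _))
  refine key.congr ?_
  intro α _ M v hv
  unfold Spn
  constructor
  · intro h Y hY hYi hYd hYb
    exact h Y hY hYi hYd (fun Z _ h1 h2 => (Set.subset_inter h1 h2).trans hYb)
  · intro h Y hY hYi hYd hYb
    exact h Y hY hYi hYd (hYb _ (Set.inter_subset_left.trans (hv b)) Set.inter_subset_left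
      Set.inter_subset_right)

/-- The property `Nice` is definable. -/
theorem def_Nice : Def 0 (fun _ M _ => Nice M) := by
  have key : Def 0 (fun _ M _ => ∃ Q ⊆ M.E, ∃ P ⊆ M.E, M.IsBase Q ∧ M.IsBase P ∧
    (∀ K ⊆ M.E, Comp M K → ∀ D ⊆ M.E, D ⊆ K → ∀ D' ⊆ M.E, D' ⊆ K →
      (InF M Q D → InF M Q D' → (D ⊆ D' ∨ D' ⊆ D)) ∧
      (InF M P D → InF M P D' → (D ⊆ D' ∨ D' ⊆ D)) ∧
      (InF M Q D → InF M P D' → (Disjoint D D' ∨ K ⊆ D ∪ D'))) ∧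
    ∀ B ⊆ M.E, M.IsBase B → ∀ b ∈ M.E, {b} ⊆ B → ∀ c ∈ M.E, ¬ {c} ⊆ B → ¬ RS M B {c} {b} →
      ∃ K ⊆ M.E, Comp M K ∧ ∃ D ⊆ M.E, D ⊆ K ∧ (InF M Q D ∨ InF M P D ∨ K ⊆ D) ∧
        {c} ⊆ D ∧ ¬ {b} ⊆ D ∧ Spn M B D) := by
    refine Def.ex (T := fun α M Q (_ : Fin 0 → Set α) => ∃ P ⊆ M.E, M.IsBase Q ∧ M.IsBase P ∧
      (∀ K ⊆ M.E, Comp M K → ∀ D ⊆ M.E, D ⊆ K → ∀ D' ⊆ M.E, D' ⊆ K →
        (InF M Q D → InF M Q D' → (D ⊆ D' ∨ D' ⊆ D)) ∧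
        (InF M P D → InF M P D' → (D ⊆ D' ∨ D' ⊆ D)) ∧
        (InF M Q D → InF M P D' → (Disjoint D D' ∨ K ⊆ D ∪ D'))) ∧
      ∀ B ⊆ M.E, M.IsBase B → ∀ b ∈ M.E, {b} ⊆ B → ∀ c ∈ M.E, ¬ {c} ⊆ B → ¬ RS M B {c} {b} →
        ∃ K ⊆ M.E, Comp M K ∧ ∃ D ⊆ M.E, D ⊆ K ∧ (InF M Q D ∨ InF M P D ∨ K ⊆ D) ∧
          {c} ⊆ D ∧ ¬ {b} ⊆ D ∧ Spn M B D) ?_
    refine Def.ex (T := fun α M P (v : Fin 1 → Set α) => M.IsBase (v 0) ∧ M.IsBase P ∧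
      (∀ K ⊆ M.E, Comp M K → ∀ D ⊆ M.E, D ⊆ K → ∀ D' ⊆ M.E, D' ⊆ K →
        (InF M (v 0) D → InF M (v 0) D' → (D ⊆ D' ∨ D' ⊆ D)) ∧
        (InF M P D → InF M P D' → (D ⊆ D' ∨ D' ⊆ D)) ∧
        (InF M (v 0) D → InF M P D' → (Disjoint D D' ∨ K ⊆ D ∪ D'))) ∧
      ∀ B ⊆ M.E, M.IsBase B → ∀ b ∈ M.E, {b} ⊆ B → ∀ c ∈ M.E, ¬ {c} ⊆ B → ¬ RS M B {c} {b} →
        ∃ K ⊆ M.E, Comp M K ∧ ∃ D ⊆ M.E, D ⊆ K ∧ (InF M (v 0) D ∨ InF M P D ∨ K ⊆ D) ∧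
          {c} ⊆ D ∧ ¬ {b} ⊆ D ∧ Spn M B D) ?_
    refine (def_base _).and ((def_base _).and (Def.and ?_ ?_))
    · refine Def.all (T := fun α M K (v : Fin 2 → Set α) => Comp M K → ∀ D ⊆ M.E, D ⊆ K → ∀ D' ⊆ M.E, D' ⊆ K →
        (InF M (v 1) D → InF M (v 1) D' → (D ⊆ D' ∨ D' ⊆ D)) ∧
        (InF M (v 0) D → InF M (v 0) D' → (D ⊆ D' ∨ D' ⊆ D)) ∧
        (InF M (v 1) D → InF M (v 0) D' → (Disjoint D D' ∨ K ⊆ D ∪ D'))) ?_
      refine (def_Comp _).imp ?_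
      refine Def.all (T := fun α M D (v : Fin 3 → Set α) => D ⊆ v 0 → ∀ D' ⊆ M.E, D' ⊆ v 0 →
        (InF M (v 2) D → InF M (v 2) D' → (D ⊆ D' ∨ D' ⊆ D)) ∧
        (InF M (v 1) D → InF M (v 1) D' → (D ⊆ D' ∨ D' ⊆ D)) ∧
        (InF M (v 2) D → InF M (v 1) D' → (Disjoint D D' ∨ v 0 ⊆ D ∪ D'))) ?_
      refine (def_sub _ _).imp ?_
      refine Def.all (T := fun α M D' (v : Fin 4 → Set α) => D' ⊆ v 1 →
        (InF M (v 3) (v 0) → InF M (v 3) D' → (v 0 ⊆ D' ∨ D' ⊆ v 0)) ∧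
        (InF M (v 2) (v 0) → InF M (v 2) D' → (v 0 ⊆ D' ∨ D' ⊆ v 0)) ∧
        (InF M (v 3) (v 0) → InF M (v 2) D' → (Disjoint (v 0) D' ∨ v 1 ⊆ v 0 ∪ D'))) ?_
      exact (def_sub _ _).imp (((def_InF _ _).imp ((def_InF _ _).imp
        ((def_sub _ _).or (def_sub _ _)))).and (((def_InF _ _).imp ((def_InF _ _).imp
        ((def_sub _ _).or (def_sub _ _)))).and ((def_InF _ _).imp ((def_InF _ _).imp
        ((def_disj _ _).or (def_subU _ _ _))))))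
    · refine Def.all (T := fun α M B (v : Fin 2 → Set α) => M.IsBase B → ∀ b ∈ M.E, {b} ⊆ B → ∀ c ∈ M.E,
        ¬ {c} ⊆ B → ¬ RS M B {c} {b} →
        ∃ K ⊆ M.E, Comp M K ∧ ∃ D ⊆ M.E, D ⊆ K ∧ (InF M (v 1) D ∨ InF M (v 0) D ∨ K ⊆ D) ∧
          {c} ⊆ D ∧ ¬ {b} ⊆ D ∧ Spn M B D) ?_
      refine (def_base _).imp ?_
      refine Def.allE (T := fun α M b (v : Fin 3 → Set α) => b ⊆ v 0 → ∀ c ∈ M.E,
        ¬ {c} ⊆ v 0 → ¬ RS M (v 0) {c} b →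
        ∃ K ⊆ M.E, Comp M K ∧ ∃ D ⊆ M.E, D ⊆ K ∧ (InF M (v 2) D ∨ InF M (v 1) D ∨ K ⊆ D) ∧
          {c} ⊆ D ∧ ¬ b ⊆ D ∧ Spn M (v 0) D) ?_
      refine (def_sub _ _).imp ?_
      refine Def.allE (T := fun α M c (v : Fin 4 → Set α) =>
        ¬ c ⊆ v 1 → ¬ RS M (v 1) c (v 0) →
        ∃ K ⊆ M.E, Comp M K ∧ ∃ D ⊆ M.E, D ⊆ K ∧ (InF M (v 3) D ∨ InF M (v 2) D ∨ K ⊆ D) ∧
          c ⊆ D ∧ ¬ v 0 ⊆ D ∧ Spn M (v 1) D) ?_
      refine (def_sub _ _).not.imp ((def_RS _ _ _).not.imp ?_)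
      refine Def.ex (T := fun α M K (v : Fin 5 → Set α) => Comp M K ∧ ∃ D ⊆ M.E, D ⊆ K ∧
        (InF M (v 4) D ∨ InF M (v 3) D ∨ K ⊆ D) ∧ v 0 ⊆ D ∧ ¬ v 1 ⊆ D ∧ Spn M (v 2) D) ?_
      refine (def_Comp _).and ?_
      refine Def.ex (T := fun α M D (v : Fin 6 → Set α) => D ⊆ v 0 ∧
        (InF M (v 5) D ∨ InF M (v 4) D ∨ v 0 ⊆ D) ∧ v 1 ⊆ D ∧ ¬ v 2 ⊆ D ∧ Spn M (v 3) D) ?_
      exact (def_sub _ _).and (((def_InF _ _).or ((def_InF _ _).or (def_sub _ _))).and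
        ((def_sub _ _).and ((def_sub _ _).not.and (def_Spn _ _))))
  refine key.congr ?_
  intro α _ M v _
  unfold Nice
  refine exists_congr fun Q => and_congr_right fun hQ => ?_
  refine exists_congr fun P => and_congr_right fun hP => ?_
  refine and_congr_right fun hQb => and_congr_right fun hPb => and_congr_right fun _ => ?_
  simp only [Set.singleton_subset_iff]
  refine forall_congr' fun B => forall_congr' fun hBE => forall_congr' fun hB =>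
    forall_congr' fun b => forall_congr' fun hb => forall_congr' fun hbB =>
    forall_congr' fun c => forall_congr' fun hc => forall_congr' fun hcB => ?_
  rw [RS_iff hcB]

end

end Pool.Agent.Q164.MSO
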